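import Pool.Agent.Y645.BU.Complete

/-!
# The relaxed objective in integers
-/

set_option autoImplicit false

namespace Pool.Agent.Y645.BU

open Finset Pool.Agent.Y645.BT

/-- Sums over `0, …, n - 1`. -/
def sm (n : ℕ) (f : ℕ → ℕ) : ℕ := ((List.range n).map f).sum

theorem sm_nat (n : ℕ) (f : ℕ → ℕ) : sm n f = ∑ i : Fin n, f i := by
  unfold sm
  rw [Fin.sum_univ_eq_sum_range (fun i => f i) n]
  induction n with
  | zero => simp
  | succ n ih => rw [List.range_succ, List.map_append, List.sum_append, ih,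
      Finset.sum_range_succ]; simp

theorem sm_eq (n : ℕ) (f : ℕ → ℕ) : (sm n f : ℝ) = ∑ i : Fin n, (f i : ℝ) := by
  rw [sm_nat]
  push_cast
  rfl

/-- A bit as a number. -/
def bt (b : Bool) : ℕ := if b then 1 else 0

theorem bt_cast (b : Bool) : (bt b : ℝ) = ind b := by
  unfold bt ind
  cases b <;> simp

/-- The square of the difference. -/
def sqd (x y : ℕ) : ℕ := ((x - y) + (y - x)) * ((x - y) + (y - x))

theorem sqd_cast (x y : ℕ) : (sqd x y : ℝ) = ((x : ℝ) - y) ^ 2 := by
  unfold sqd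
  rcases le_total x y with h | h
  · rw [Nat.sub_eq_zero_of_le h, Nat.zero_add, Nat.cast_mul, Nat.cast_sub h]
    ring
  · rw [Nat.sub_eq_zero_of_le h, Nat.add_zero, Nat.cast_mul, Nat.cast_sub h]
    ring

section

variable (E : ℕ → ℕ → Bool) (Y : ℕ → Bool) (u T : ℕ)

/-- Degrees in the second sample. -/
def dgN (b : ℕ) : ℕ := sm T fun c => bt (E (u + b) (u + c))

/-- Labelled neighbours in the first sample. -/
def aN (b : ℕ) : ℕ := sm u fun c => bt (E (u + b) c) * bt (Y c)

/-- Labelled neighbours in the second sample. -/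
def yN (b : ℕ) : ℕ := sm T fun c => bt (E (u + b) (u + c)) * bt (Y (u + c))

/-- The left-hand side. -/
def lhsN (K g q w : ℕ) : ℕ :=
  2 * g * q * (4 * T * sm T (fun b => bt (Y (u + b)) * dgN E u T b) +
    4 * K * sm T (fun b => sqd (w * aN E Y u b) (yN E Y u T b)) +
    K * T * sqd (2 * sm T (fun b => bt (Y (u + b)))) T)

/-- The right-hand side. -/
def rhsN (g p q w : ℕ) : ℕ :=
  4 * (T * T * T) * (2 * g * p + q) +
    2 * g * q * (4 * T * sm T (fun b => bt (Y (u + b)) * (w * aN E Y u b)))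

/-- The relaxed objective of a labelled sample. -/
noncomputable def PhiE (K : ℝ) : ℝ :=
  Phi K (fun b c : Fin T => ind (E (u + b) (u + c)))
    (fun b => av fun c : Fin u => ind (E (u + b) c) * ind (Y c)) (fun b => ind (Y (u + b)))

theorem chk_iff {K g p q w : ℕ} (hT : T = w * u) (hu : 0 < u) (hw : 0 < w) (hg : 0 < g)
    (hq : 0 < q) : lhsN E Y u T K g q w ≤ rhsN E Y u T g p q w ↔
      PhiE E Y u T K ≤ (p : ℝ) / q + 1 / (2 * g) := by
  have hT0 : 0 < T := by rw [hT]; positivity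
  have hT' : (0 : ℝ) < T := by exact_mod_cast hT0
  have hu' : (0 : ℝ) < u := by exact_mod_cast hu
  have hw' : (0 : ℝ) < w := by exact_mod_cast hw
  have hg' : (0 : ℝ) < g := by exact_mod_cast hg
  have hq' : (0 : ℝ) < q := by exact_mod_cast hq
  have hTw : (T : ℝ) = w * u := by rw [hT]; push_cast; ring
  -- the sums
  set D : Fin T → ℝ := fun b => ∑ c : Fin T, ind (E (u + b) (u + c)) with hD
  set A : Fin T → ℝ := fun b => ∑ c : Fin u, ind (E (u + b) c) * ind (Y c) with hA
  set Z : Fin T → ℝ := fun b => ∑ c : Fin T, ind (E (u + b) (u + c)) * ind (Y (u + c)) with hZ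
  have c1 : ∀ b : Fin T, (dgN E u T b : ℝ) = D b := by
    intro b
    unfold dgN
    rw [sm_eq]
    exact Finset.sum_congr rfl fun c _ => bt_cast _
  have c2 : ∀ b : Fin T, (aN E Y u b : ℝ) = A b := by
    intro b
    unfold aN
    rw [sm_eq]
    refine Finset.sum_congr rfl fun c _ => ?_
    rw [Nat.cast_mul, bt_cast, bt_cast]
  have c3 : ∀ b : Fin T, (yN E Y u T b : ℝ) = Z b := by
    intro b
    unfold yN
    rw [sm_eq]
    refine Finset.sum_congr rfl fun c _ => ?_
    rw [Nat.cast_mul, bt_cast, bt_cast]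
  have hP : PhiE E Y u T K = (∑ b : Fin T, ind (Y (u + b)) * D b) / (T : ℝ) ^ 2 -
      (∑ b : Fin T, ind (Y (u + b)) * (w * A b)) / (T : ℝ) ^ 2 +
      K * ((∑ b : Fin T, (w * A b - Z b) ^ 2) / (T : ℝ) ^ 3) +
      K * ((2 * (∑ b : Fin T, ind (Y (u + b))) - T) ^ 2 / (4 * (T : ℝ) ^ 2)) := by
    have f1 : av (fun b : Fin T => ind (Y (u + b)) * ((av fun c : Fin T => ind (E (u + b) (u + c))) -
        av fun c : Fin u => ind (E (u + b) c) * ind (Y c))) =
        (∑ b : Fin T, ind (Y (u + b)) * D b) / (T : ℝ) ^ 2 -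
        (∑ b : Fin T, ind (Y (u + b)) * (w * A b)) / (T : ℝ) ^ 2 := by
      have e1 : ∑ b : Fin T, ind (Y (u + b)) * (D b / T - A b / u) =
          ((∑ b : Fin T, ind (Y (u + b)) * D b) -
            ∑ b : Fin T, ind (Y (u + b)) * (w * A b)) / T := by
        rw [← Finset.sum_sub_distrib, Finset.sum_div]
        refine Finset.sum_congr rfl fun b _ => ?_
        rw [hTw]
        field_simp
      change (∑ b : Fin T, ind (Y (u + b)) * (D b / T - A b / u)) / T = _
      rw [e1, sub_div, sub_div, div_div, div_div, ← pow_two]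
    have f2 : av (fun b : Fin T => ((av fun c : Fin u => ind (E (u + b) c) * ind (Y c)) -
        av fun c : Fin T => ind (E (u + b) (u + c)) * ind (Y (u + c))) ^ 2) =
        (∑ b : Fin T, (w * A b - Z b) ^ 2) / (T : ℝ) ^ 3 := by
      have e1 : ∑ b : Fin T, (A b / u - Z b / T) ^ 2 =
          (∑ b : Fin T, (w * A b - Z b) ^ 2) / (T : ℝ) ^ 2 := by
        rw [Finset.sum_div]
        refine Finset.sum_congr rfl fun b _ => ?_
        rw [hTw]
        field_simp
      change (∑ b : Fin T, (A b / u - Z b / T) ^ 2) / T = _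
      rw [e1]
      field_simp
    have f3 : (av (fun b : Fin T => ind (Y (u + b))) - 1 / 2) ^ 2 =
        (2 * (∑ b : Fin T, ind (Y (u + b))) - T) ^ 2 / (4 * (T : ℝ) ^ 2) := by
      unfold av
      field_simp
      ring
    unfold PhiE Phi
    rw [f1, f2, f3]
  have hL : (lhsN E Y u T K g q w : ℝ) = 2 * g * q * (4 * T * (∑ b : Fin T, ind (Y (u + b)) * D b) +
      4 * K * (∑ b : Fin T, (w * A b - Z b) ^ 2) +
      K * T * (2 * (∑ b : Fin T, ind (Y (u + b))) - T) ^ 2) := by
    unfold lhsN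
    simp only [Nat.cast_mul, Nat.cast_add, sm_eq, sqd_cast, bt_cast, c1, c2, c3, Nat.cast_ofNat]
  have hR : (rhsN E Y u T g p q w : ℝ) = 4 * (T * T * T) * (2 * g * p + q) +
      2 * g * q * (4 * T * ∑ b : Fin T, ind (Y (u + b)) * (w * A b)) := by
    unfold rhsN
    simp only [Nat.cast_mul, Nat.cast_add, sm_eq, bt_cast, c2, Nat.cast_ofNat]
  rw [← Nat.cast_le (α := ℝ), hL, hR, hP]
  generalize (∑ b : Fin T, ind (Y (u + b)) * D b) = s1
  generalize (∑ b : Fin T, ind (Y (u + b)) * (w * A b)) = s2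
  generalize (∑ b : Fin T, (w * A b - Z b) ^ 2) = s3
  generalize (∑ b : Fin T, ind (Y (u + b))) = s4
  have key : s1 / (T : ℝ) ^ 2 - s2 / (T : ℝ) ^ 2 + K * (s3 / (T : ℝ) ^ 3) +
      K * ((2 * s4 - T) ^ 2 / (4 * (T : ℝ) ^ 2)) - ((p : ℝ) / q + 1 / (2 * g)) =
      (2 * g * q * (4 * T * s1 + 4 * K * s3 + K * T * (2 * s4 - T) ^ 2) -
        (4 * (T * T * T) * (2 * g * p + q) + 2 * g * q * (4 * T * s2))) /
        (8 * g * q * (T : ℝ) ^ 3) := by
    field_simp
    ring
  have hden : (0 : ℝ) < 8 * g * q * (T : ℝ) ^ 3 := by positivity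
  constructor
  · intro h
    rw [← sub_nonpos, key]
    exact div_nonpos_of_nonpos_of_nonneg (by linarith) hden.le
  · intro h
    rw [← sub_nonpos, key, div_le_iff₀ hden, zero_mul] at h
    linarith

end

/-- The relaxed objective depends only on the values of the labels on the sample. -/
theorem chk_congr {E : ℕ → ℕ → Bool} {Y Y' : ℕ → Bool} {u T : ℕ} (h : ∀ i < u + T, Y i = Y' i)
    (K : ℝ) : PhiE E Y u T K = PhiE E Y' u T K := by
  have h1 : (fun b : Fin T => av fun c : Fin u => ind (E (u + b) c) * ind (Y c)) =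
      fun b : Fin T => av fun c : Fin u => ind (E (u + b) c) * ind (Y' c) := by
    funext b
    congr 1
    funext c
    rw [h c (by omega)]
  have h2 : (fun b : Fin T => ind (Y (u + b))) = fun b : Fin T => ind (Y' (u + b)) := by
    funext b
    rw [h (u + b) (by omega)]
  unfold PhiE
  rw [h1, h2]

end Pool.Agent.Y645.BU
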