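import Pool.Agent.Y645.BU.Chk
import Pool.Agent.Y645.BT.MachPoly

/-!
# The integer test takes polynomial time
-/

set_option autoImplicit false

namespace Pool.Agent.Y645.BU

open Pool.Agent.NPC Pool.Agent.Y645.BT

variable {β : Type} [TEnc β]

theorem sm_poly {n : β → ℕ} {f : β → ℕ → ℕ} (hn : UPoly n)
    (hf : NPC.Poly (fun z : β × ℕ => f z.1 z.2)) : NPC.Poly (fun x => sm (n x) (f x)) :=
  Poly.sum (NPC.Poly.map (F := fun x i => f x i) (UPoly.range hn) hf)

theorem bt_poly {c : β → Bool} (hc : NPC.Poly c) : NPC.Poly (fun x => bt (c x)) :=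
  (Poly.cond hc (NPC.Poly.const 1) (NPC.Poly.const 0)).congr fun x => by
    unfold bt
    cases c x <;> rfl

theorem sqd_poly {m n : β → ℕ} (hm : NPC.Poly m) (hn : NPC.Poly n) :
    NPC.Poly (fun x => sqd (m x) (n x)) := by
  have h := Poly.add (NPC.Poly.sub hm hn) (NPC.Poly.sub hn hm)
  exact NPC.Poly.mul h h

section

variable {E : β → ℕ → ℕ → Bool} {Y : β → ℕ → Bool} {u T b : β → ℕ}

theorem dgN_poly (hE : NPC.Poly (fun z : β × ℕ × ℕ => E z.1 z.2.1 z.2.2)) (hu : UPoly u)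
    (hT : UPoly T) (hb : NPC.Poly b) : NPC.Poly (fun x => dgN (E x) (u x) (T x) (b x)) := by
  have f1 := Poly.fst (NPC.Poly.id (α := β × ℕ))
  have f2 := Poly.snd (NPC.Poly.id (α := β × ℕ))
  have hu' := hu.toPoly.comp f1
  exact sm_poly hT (bt_poly (hE.comp (Poly.pair f1 (Poly.pair (NPC.Poly.add hu' (hb.comp f1))
    (NPC.Poly.add hu' f2)))))

theorem aN_poly (hE : NPC.Poly (fun z : β × ℕ × ℕ => E z.1 z.2.1 z.2.2))
    (hY : NPC.Poly (fun z : β × ℕ => Y z.1 z.2)) (hu : UPoly u) (hb : NPC.Poly b) :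
    NPC.Poly (fun x => aN (E x) (Y x) (u x) (b x)) := by
  have f1 := Poly.fst (NPC.Poly.id (α := β × ℕ))
  have f2 := Poly.snd (NPC.Poly.id (α := β × ℕ))
  have hu' := hu.toPoly.comp f1
  exact sm_poly hu (NPC.Poly.mul (bt_poly (hE.comp (Poly.pair f1
    (Poly.pair (NPC.Poly.add hu' (hb.comp f1)) f2)))) (bt_poly (hY.comp (Poly.pair f1 f2))))

theorem yN_poly (hE : NPC.Poly (fun z : β × ℕ × ℕ => E z.1 z.2.1 z.2.2))
    (hY : NPC.Poly (fun z : β × ℕ => Y z.1 z.2)) (hu : UPoly u) (hT : UPoly T)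
    (hb : NPC.Poly b) : NPC.Poly (fun x => yN (E x) (Y x) (u x) (T x) (b x)) := by
  have f1 := Poly.fst (NPC.Poly.id (α := β × ℕ))
  have f2 := Poly.snd (NPC.Poly.id (α := β × ℕ))
  have hu' := hu.toPoly.comp f1
  have hc := NPC.Poly.add hu' f2
  exact sm_poly hT (NPC.Poly.mul (bt_poly (hE.comp (Poly.pair f1
    (Poly.pair (NPC.Poly.add hu' (hb.comp f1)) hc)))) (bt_poly (hY.comp (Poly.pair f1 hc))))

variable {K g w : β → ℕ}

theorem lhsN_poly (q : ℕ) (hE : NPC.Poly (fun z : β × ℕ × ℕ => E z.1 z.2.1 z.2.2))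
    (hY : NPC.Poly (fun z : β × ℕ => Y z.1 z.2)) (hu : UPoly u) (hT : UPoly T)
    (hK : NPC.Poly K) (hg : NPC.Poly g) (hw : NPC.Poly w) :
    NPC.Poly (fun x => lhsN (E x) (Y x) (u x) (T x) (K x) (g x) q (w x)) := by
  have f1 := Poly.fst (NPC.Poly.id (α := β × ℕ))
  have f2 := Poly.snd (NPC.Poly.id (α := β × ℕ))
  have hE' : NPC.Poly (fun z : (β × ℕ) × ℕ × ℕ => E z.1.1 z.2.1 z.2.2) :=
    hE.comp (Poly.pair (Poly.fst (Poly.fst NPC.Poly.id)) (Poly.snd NPC.Poly.id))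
  have hY' : NPC.Poly (fun z : (β × ℕ) × ℕ => Y z.1.1 z.2) :=
    hY.comp (Poly.pair (Poly.fst (Poly.fst NPC.Poly.id)) (Poly.snd NPC.Poly.id))
  have hu' : UPoly (fun z : β × ℕ => u z.1) := hu.comp f1
  have hT' : UPoly (fun z : β × ℕ => T z.1) := hT.comp f1
  have hyb : NPC.Poly (fun z : β × ℕ => bt (Y z.1 (u z.1 + z.2))) :=
    bt_poly (hY.comp (Poly.pair f1 (NPC.Poly.add hu'.toPoly f2)))
  have s1 : NPC.Poly (fun x => sm (T x) (fun b => bt (Y x (u x + b)) * dgN (E x) (u x) (T x) b)) :=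
    sm_poly (f := fun x b => bt (Y x (u x + b)) * dgN (E x) (u x) (T x) b) hT
      (NPC.Poly.mul hyb (dgN_poly (E := fun z : β × ℕ => E z.1) hE' hu' hT' f2))
  have s2 : NPC.Poly (fun x => sm (T x) (fun b =>
      sqd (w x * aN (E x) (Y x) (u x) b) (yN (E x) (Y x) (u x) (T x) b))) :=
    sm_poly (f := fun x b => sqd (w x * aN (E x) (Y x) (u x) b) (yN (E x) (Y x) (u x) (T x) b)) hT
      (sqd_poly (NPC.Poly.mul (hw.comp f1)
    (aN_poly (E := fun z : β × ℕ => E z.1) (Y := fun z : β × ℕ => Y z.1) hE' hY' hu' f2))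
    (yN_poly (E := fun z : β × ℕ => E z.1) (Y := fun z : β × ℕ => Y z.1) hE' hY' hu' hT' f2))
  have s3 : NPC.Poly (fun x => sm (T x) (fun b => bt (Y x (u x + b)))) :=
    sm_poly (f := fun x b => bt (Y x (u x + b))) hT hyb
  have hT0 := hT.toPoly
  unfold lhsN
  exact NPC.Poly.mul (NPC.Poly.mul (NPC.Poly.mul (NPC.Poly.const 2) hg) (NPC.Poly.const q))
    (NPC.Poly.add (NPC.Poly.add (NPC.Poly.mul (NPC.Poly.mul (NPC.Poly.const 4) hT0) s1)
      (NPC.Poly.mul (NPC.Poly.mul (NPC.Poly.const 4) hK) s2))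
      (NPC.Poly.mul (NPC.Poly.mul hK hT0) (sqd_poly (NPC.Poly.mul (NPC.Poly.const 2) s3) hT0)))

theorem rhsN_poly (p q : ℕ) (hE : NPC.Poly (fun z : β × ℕ × ℕ => E z.1 z.2.1 z.2.2))
    (hY : NPC.Poly (fun z : β × ℕ => Y z.1 z.2)) (hu : UPoly u) (hT : UPoly T)
    (hg : NPC.Poly g) (hw : NPC.Poly w) :
    NPC.Poly (fun x => rhsN (E x) (Y x) (u x) (T x) (g x) p q (w x)) := by
  have f1 := Poly.fst (NPC.Poly.id (α := β × ℕ))
  have f2 := Poly.snd (NPC.Poly.id (α := β × ℕ))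
  have hE' : NPC.Poly (fun z : (β × ℕ) × ℕ × ℕ => E z.1.1 z.2.1 z.2.2) :=
    hE.comp (Poly.pair (Poly.fst (Poly.fst NPC.Poly.id)) (Poly.snd NPC.Poly.id))
  have hY' : NPC.Poly (fun z : (β × ℕ) × ℕ => Y z.1.1 z.2) :=
    hY.comp (Poly.pair (Poly.fst (Poly.fst NPC.Poly.id)) (Poly.snd NPC.Poly.id))
  have hu' : UPoly (fun z : β × ℕ => u z.1) := hu.comp f1
  have hyb : NPC.Poly (fun z : β × ℕ => bt (Y z.1 (u z.1 + z.2))) :=
    bt_poly (hY.comp (Poly.pair f1 (NPC.Poly.add hu'.toPoly f2)))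
  have s1 : NPC.Poly (fun x => sm (T x) (fun b =>
      bt (Y x (u x + b)) * (w x * aN (E x) (Y x) (u x) b))) :=
    sm_poly (f := fun x b => bt (Y x (u x + b)) * (w x * aN (E x) (Y x) (u x) b)) hT
      (NPC.Poly.mul hyb (NPC.Poly.mul (hw.comp f1)
    (aN_poly (E := fun z : β × ℕ => E z.1) (Y := fun z : β × ℕ => Y z.1) hE' hY' hu' f2)))
  have hT0 := hT.toPoly
  unfold rhsN
  exact NPC.Poly.add (NPC.Poly.mul (NPC.Poly.mul (NPC.Poly.const 4)
    (NPC.Poly.mul (NPC.Poly.mul hT0 hT0) hT0))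
    (NPC.Poly.add (NPC.Poly.mul (NPC.Poly.mul (NPC.Poly.const 2) hg) (NPC.Poly.const p))
      (NPC.Poly.const q)))
    (NPC.Poly.mul (NPC.Poly.mul (NPC.Poly.mul (NPC.Poly.const 2) hg) (NPC.Poly.const q))
      (NPC.Poly.mul (NPC.Poly.mul (NPC.Poly.const 4) hT0) s1))

end

/-! ### The parameters -/

/-- The reciprocal of the gap. -/
def zg (q s : ℕ) : ℕ := 8 * q * s

/-- The basic sample size. -/
def zZ (q s : ℕ) : ℕ := 131072 * zg q s ^ 4

/-- The size of the first sample. -/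
def zu (q s : ℕ) : ℕ := zZ q s ^ 2

/-- The ratio of the sample sizes. -/
def zw (q s : ℕ) : ℕ := 2 * zZ q s

/-- The size of the second sample. -/
def zT (q s : ℕ) : ℕ := zw q s * zu q s

/-- The number of samples. -/
def zN (q s : ℕ) : ℕ := zu q s + zT q s

section

variable {s : β → ℕ} (q : ℕ)

theorem zg_poly (hs : UPoly s) : UPoly (fun x => zg q (s x)) := UPoly.mul (UPoly.const _) hs

theorem zZ_poly (hs : UPoly s) : UPoly (fun x => zZ q (s x)) :=
  UPoly.mul (UPoly.const _) (UPoly.pow' (zg_poly q hs) 4)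

theorem zu_poly (hs : UPoly s) : UPoly (fun x => zu q (s x)) := UPoly.pow' (zZ_poly q hs) 2

theorem zw_poly (hs : UPoly s) : UPoly (fun x => zw q (s x)) :=
  UPoly.mul (UPoly.const _) (zZ_poly q hs)

theorem zT_poly (hs : UPoly s) : UPoly (fun x => zT q (s x)) :=
  UPoly.mul (zw_poly q hs) (zu_poly q hs)

theorem zN_poly (hs : UPoly s) : UPoly (fun x => zN q (s x)) :=
  UPoly.add (zu_poly q hs) (zT_poly q hs)

end

/-- Adjacency from the list of the answers. -/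
def eA (N : ℕ) (ans : List Bool) (i j : ℕ) : Bool := ans.getD (i * N + j) false

/-- The integer test. -/
def chk (p q s : ℕ) (ans yw : List Bool) : Bool :=
  decide (lhsN (eA (zN q s) ans) (fun i => yw.getD i false) (zu q s) (zT q s) (2 * zg q s)
    (zg q s) q (zw q s) ≤
    rhsN (eA (zN q s) ans) (fun i => yw.getD i false) (zu q s) (zT q s) (zg q s) p q (zw q s))

theorem chk_poly (p q : ℕ) {s : β → ℕ} {ans yw : β → List Bool} (hs : UPoly s)
    (ha : NPC.Poly ans) (hy : NPC.Poly yw) :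
    NPC.Poly (fun x => chk p q (s x) (ans x) (yw x)) := by
  have f1 := Poly.fst (NPC.Poly.id (α := β × ℕ × ℕ))
  have f2 := Poly.snd (NPC.Poly.id (α := β × ℕ × ℕ))
  have g1 := Poly.fst (NPC.Poly.id (α := β × ℕ))
  have g2 := Poly.snd (NPC.Poly.id (α := β × ℕ))
  have hE : NPC.Poly (fun z : β × ℕ × ℕ => eA (zN q (s z.1)) (ans z.1) z.2.1 z.2.2) :=
    Poly.getD (ha.comp f1) (NPC.Poly.add (NPC.Poly.mul (Poly.fst f2)
      ((zN_poly q hs).toPoly.comp f1)) (Poly.snd f2)) (NPC.Poly.const false)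
  have hY : NPC.Poly (fun z : β × ℕ => (yw z.1).getD z.2 false) :=
    Poly.getD (hy.comp g1) g2 (NPC.Poly.const false)
  have hg := (zg_poly q hs).toPoly
  exact Poly.decide_le (lhsN_poly (E := fun x => eA (zN q (s x)) (ans x))
    (Y := fun x i => (yw x).getD i false) q hE hY (zu_poly q hs) (zT_poly q hs)
    (NPC.Poly.mul (NPC.Poly.const 2) hg) hg (zw_poly q hs).toPoly)
    (rhsN_poly (E := fun x => eA (zN q (s x)) (ans x))
    (Y := fun x i => (yw x).getD i false) p q hE hY (zu_poly q hs) (zT_poly q hs) hg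
      (zw_poly q hs).toPoly)

/-- The sampled graph, given by the list of the answers, is accepted. -/
def Acc (p q : ℕ) (I : List Unit × List Bool) : Prop :=
  ∃ yw : List Bool, yw.length = zN q I.1.length ∧ chk p q I.1.length I.2 yw = true

/-- The acceptance condition is in `NP`. -/
theorem acc_np (p q : ℕ) : InNP (lang (Acc p q)) := by
  have h1 : UPoly (fun x : (List Unit × List Bool) × List Bool => x.1.1.length) :=
    UPoly.length (Poly.fst (Poly.fst NPC.Poly.id))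
  have hR : NPC.Poly (fun x : (List Unit × List Bool) × List Bool =>
      decide (x.2.length = zN q x.1.1.length) && chk p q x.1.1.length x.1.2 x.2) :=
    Poly.and (Poly.decide_eq (Poly.length (Poly.snd NPC.Poly.id)) (zN_poly q h1).toPoly)
      (chk_poly p q h1 (Poly.snd (Poly.fst NPC.Poly.id)) (Poly.snd NPC.Poly.id))
  obtain ⟨b, hb⟩ := Poly.sz_le (zN_poly q (UPoly.length (Poly.fst
    (NPC.Poly.id (α := List Unit × List Bool)))))
  refine inNPP_of hR (Polynomial.C 4 * b + Polynomial.C 1) fun I => ?_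
  unfold Acc
  constructor
  · rintro ⟨yw, h2, h3⟩
    refine ⟨yw, ?_, ?_⟩
    · have h4 := sz_listBool_le yw
      have h5 : sz (List.replicate (zN q I.1.length) ()) ≤ b.eval (sz I) := hb I
      have h6 := length_lt_sz (List.replicate (zN q I.1.length) ())
      rw [List.length_replicate] at h6
      simp only [Polynomial.eval_add, Polynomial.eval_mul, Polynomial.eval_C]
      omega
    · simp [h2, h3]
  · rintro ⟨yw, _, h3⟩
    rw [Bool.and_eq_true, decide_eq_true_eq] at h3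
    exact ⟨yw, h3⟩

end Pool.Agent.Y645.BU
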