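import Pool.Agent.Y645.BU.Lower

/-!
# A small bisection gives a good solution on the sample
-/

set_option autoImplicit false

namespace Pool.Agent.Y645.BU

open Finset Pool.Agent.Y645.BT

variable {n T u : ℕ}

open Classical in
/-- Membership in a set, as bits. -/
noncomputable def mb (S : Finset (Fin n)) (i : Fin n) : Bool := decide (i ∈ S)

theorem lab_mb (S : Finset (Fin n)) (i : Fin n) : lab (mb S) i = if i ∈ S then 1 else 0 := by
  unfold lab mb
  by_cases h : i ∈ S <;> simp [h]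

theorem av_mb {S : Finset (Fin n)} (hn : 0 < n) (hS : 2 * S.card = n) :
    av (lab (mb S)) = 1 / 2 := by
  have hn' : (n : ℝ) ≠ 0 := by exact_mod_cast hn.ne'
  have h1 : ∑ i, lab (mb S) i = S.card := by
    simp only [lab_mb]
    simp
  have h2 : (n : ℝ) = 2 * S.card := by exact_mod_cast hS.symm
  unfold av
  rw [h1, div_eq_div_iff hn' (by norm_num), h2]
  ring

theorem av_cut {S : Finset (Fin n)} (G : Gr n) :
    av (fun i => lab (mb S) i * (av (wG G i) - av fun j => wG G i j * lab (mb S) j)) =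
      (cut G S : ℝ) / (n : ℝ) ^ 2 := by
  classical
  have s1 : ∀ g : Fin n → ℝ, ∑ u ∈ S, g u = ∑ u, lab (mb S) u * g u := by
    intro g
    simp only [lab_mb, ite_mul, one_mul, zero_mul]
    simp
  have s2 : ∀ g : Fin n → ℝ, ∑ u ∈ Sᶜ, g u = ∑ u, (1 - lab (mb S) u) * g u := by
    intro g
    have h1 := Finset.sum_add_sum_compl S g
    rw [s1] at h1
    have h2 : ∑ u, (1 - lab (mb S) u) * g u = ∑ u, g u - ∑ u, lab (mb S) u * g u := by
      rw [← Finset.sum_sub_distrib]
      refine Finset.sum_congr rfl fun u _ => ?_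
      ring
    linarith
  have h2 : (cut G S : ℝ) = ∑ i, lab (mb S) i * ∑ j, (1 - lab (mb S) j) * wG G i j := by
    rw [← s1]
    have h3 : (cut G S : ℝ) = ∑ u ∈ S, ∑ v ∈ Sᶜ, wG G u v := by
      unfold cut wG ind
      rw [← Finset.sum_product', Finset.sum_boole]
    rw [h3]
    exact Finset.sum_congr rfl fun u _ => s2 _
  rw [h2]
  unfold av
  rw [pow_two, ← div_div]
  congr 1
  rw [Finset.sum_div]
  refine Finset.sum_congr rfl fun i _ => ?_
  have f1 : ∑ j, (1 - lab (mb S) j) * wG G i j =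
      (∑ j, wG G i j) - ∑ j, wG G i j * lab (mb S) j := by
    rw [← Finset.sum_sub_distrib]
    refine Finset.sum_congr rfl fun j _ => ?_
    ring
  rw [f1]
  dsimp only
  ring

/-- **Completeness.** -/
theorem complete (hn : 0 < n) (hT : 0 < T) (hu : 0 < u) {G : Gr n} {S : Finset (Fin n)}
    {ρ K δ : ℝ} (hS : 2 * S.card = n) (hc : (cut G S : ℝ) ≤ ρ * (n : ℝ) ^ 2) (hK : 0 ≤ K)
    (hδ : 0 ≤ δ) (hδ1 : δ ≤ 1) :
    pb (fun z : (Fin u → Fin n) × (Fin T → Fin n) => ρ + 3 * δ + 5 * K * δ ^ 2 <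
      Phi K (wS (wG G) z.2) (fun b => aU (wG G) z.1 (lab fun c => mb S (z.1 c)) (z.2 b))
        (lab fun b => mb S (z.2 b))) ≤
      2 * T * (3 * Real.exp (-(δ ^ 2 * u / 8))) +
        (3 * T + 3) * (3 * Real.exp (-(δ ^ 2 * T / 8))) := by
  have hn' : (0 : ℝ) < n := by exact_mod_cast hn
  set EU := 3 * Real.exp (-(δ ^ 2 * u / 8)) with hEU
  set ET := 3 * Real.exp (-(δ ^ 2 * T / 8)) with hET
  have hEU0 : 0 ≤ EU := by positivity
  have hET0 : 0 ≤ ET := by positivity
  set x : Fin n → ℝ := lab (mb S) with hx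
  set W : Fin n → ℝ := fun i => av fun j => wG G i j * x j with hW
  have hx0 : ∀ i, 0 ≤ x i ∧ x i ≤ 1 := fun i => lab_bd (mb S) i
  have hwx : ∀ i j, |wG G i j * x j| ≤ 1 := by
    intro i j
    rw [abs_of_nonneg (mul_nonneg (wG_bd G i j).1 (hx0 j).1)]
    exact mul_le_one₀ (wG_bd G i j).2 (hx0 j).1 (hx0 j).2
  have hw1 : ∀ i j, |wG G i j| ≤ 1 := by
    intro i j
    rw [abs_of_nonneg (wG_bd G i j).1]
    exact (wG_bd G i j).2
  have hWb : ∀ i, 0 ≤ W i ∧ W i ≤ 1 := fun i =>
    ⟨av_nonneg fun j => mul_nonneg (wG_bd G i j).1 (hx0 j).1,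
      av_le zero_le_one fun j => mul_le_one₀ (wG_bd G i j).2 (hx0 j).1 (hx0 j).2⟩
  have hWw : ∀ i, W i ≤ av (wG G i) := fun i => av_mono fun j => by
    have := mul_le_mul_of_nonneg_left (hx0 j).2 (wG_bd G i j).1
    linarith
  have hDb : ∀ i, 0 ≤ av (wG G i) ∧ av (wG G i) ≤ 1 := fun i =>
    ⟨av_nonneg fun j => (wG_bd G i j).1, av_le zero_le_one fun j => (wG_bd G i j).2⟩
  have hh : ∀ i, |x i * (av (wG G i) - W i)| ≤ 1 := by
    intro i
    have h1 := hWw i
    have h2 := hWb i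
    have h3 := hDb i
    rw [abs_of_nonneg (mul_nonneg (hx0 i).1 (by linarith))]
    exact mul_le_one₀ (hx0 i).2 (by linarith) (by linarith)
  have h8 : (8 : ℝ) * 1 ^ 2 = 8 := by norm_num
  have hδ2 : δ ≤ 2 * 1 := by linarith
  -- events on the second sample
  have e1 : pb (fun v : Fin T → Fin n => ∃ b, W (v b) + δ < av fun c => wG G (v b) (v c) * x (v c))
      ≤ T * ET := by
    refine (pb_exists_le _ fun b => ?_).trans (by rw [Fintype.card_fin])
    have := tail_up (fun i j => wG G i j * x j) one_pos hδ hδ2 hwx b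
    rwa [h8] at this
  have e2 : pb (fun v : Fin T → Fin n => ∃ b, (av fun c => wG G (v b) (v c) * x (v c)) + δ < W (v b))
      ≤ T * ET := by
    refine (pb_exists_le _ fun b => ?_).trans (by rw [Fintype.card_fin])
    have := tail_down (fun i j => wG G i j * x j) one_pos hδ hδ2 hwx b
    rwa [h8] at this
  have e3 : pb (fun v : Fin T → Fin n => ∃ b, av (wG G (v b)) + δ < av fun c => wG G (v b) (v c))
      ≤ T * ET := by
    refine (pb_exists_le _ fun b => ?_).trans (by rw [Fintype.card_fin])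
    have := tail_up (wG G) one_pos hδ hδ2 hw1 b
    rwa [h8] at this
  have e4 : pb (fun v : Fin T → Fin n => av (fun i => x i * (av (wG G i) - W i)) + δ <
      av fun c => x (v c) * (av (wG G (v c)) - W (v c))) ≤ ET := by
    have := fun_up (T := T) (fun i => x i * (av (wG G i) - W i)) hT one_pos hδ hδ2 hh
    rwa [h8] at this
  have hxa : ∀ i, |x i| ≤ 1 := fun i => by
    rw [abs_of_nonneg (hx0 i).1]; exact (hx0 i).2
  have e5 : pb (fun v : Fin T → Fin n => av x + δ < av fun c => x (v c)) ≤ ET := by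
    have := fun_up (T := T) x hT one_pos hδ hδ2 hxa
    rwa [h8] at this
  have e6 : pb (fun v : Fin T → Fin n => (av fun c => x (v c)) + δ < av x) ≤ ET := by
    have := fun_down (T := T) x hT one_pos hδ hδ2 hxa
    rwa [h8] at this
  -- events on the first sample
  have e7 : ∀ v : Fin T → Fin n, pb (fun z : Fin u → Fin n =>
      (∃ b, W (v b) + δ < av fun c => wG G (v b) (z c) * x (z c)) ∨
      (∃ b, (av fun c => wG G (v b) (z c) * x (z c)) + δ < W (v b))) ≤ 2 * T * EU := by
    intro v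
    have f1 : pb (fun z : Fin u → Fin n =>
        (∃ b, W (v b) + δ < av fun c => wG G (v b) (z c) * x (z c))) ≤ T * EU := by
      refine (pb_exists_le _ fun b => ?_).trans (by rw [Fintype.card_fin])
      have := fun_up (T := u) (fun j => wG G (v b) j * x j) hu one_pos hδ hδ2 (hwx (v b))
      rwa [h8] at this
    have f2 : pb (fun z : Fin u → Fin n =>
        (∃ b, (av fun c => wG G (v b) (z c) * x (z c)) + δ < W (v b))) ≤ T * EU := by
      refine (pb_exists_le _ fun b => ?_).trans (by rw [Fintype.card_fin])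
      have := fun_down (T := u) (fun j => wG G (v b) j * x j) hu one_pos hδ hδ2 (hwx (v b))
      rwa [h8] at this
    refine (pb_or _ _).trans ?_
    linarith
  have e8 : pb (fun v : Fin T → Fin n =>
      (∃ b, W (v b) + δ < av fun c => wG G (v b) (v c) * x (v c)) ∨
      ((∃ b, (av fun c => wG G (v b) (v c) * x (v c)) + δ < W (v b)) ∨
      ((∃ b, av (wG G (v b)) + δ < av fun c => wG G (v b) (v c)) ∨
      ((av (fun i => x i * (av (wG G i) - W i)) + δ <
        av fun c => x (v c) * (av (wG G (v c)) - W (v c))) ∨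
      ((av x + δ < av fun c => x (v c)) ∨ ((av fun c => x (v c)) + δ < av x)))))) ≤
      (3 * T + 3) * ET := by
    refine (pb_or _ _).trans ?_
    refine (add_le_add e1 ((pb_or _ _).trans (add_le_add e2 ((pb_or _ _).trans (add_le_add e3
      ((pb_or _ _).trans (add_le_add e4 ((pb_or _ _).trans (add_le_add e5 e6))))))))).trans ?_
    linarith
  -- the union
  have e9 : pb (fun z : (Fin u → Fin n) × (Fin T → Fin n) =>
      ((∃ b, W (z.2 b) + δ < av fun c => wG G (z.2 b) (z.1 c) * x (z.1 c)) ∨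
      (∃ b, (av fun c => wG G (z.2 b) (z.1 c) * x (z.1 c)) + δ < W (z.2 b))) ∨
      ((∃ b, W (z.2 b) + δ < av fun c => wG G (z.2 b) (z.2 c) * x (z.2 c)) ∨
      ((∃ b, (av fun c => wG G (z.2 b) (z.2 c) * x (z.2 c)) + δ < W (z.2 b)) ∨
      ((∃ b, av (wG G (z.2 b)) + δ < av fun c => wG G (z.2 b) (z.2 c)) ∨
      ((av (fun i => x i * (av (wG G i) - W i)) + δ <
        av fun c => x (z.2 c) * (av (wG G (z.2 c)) - W (z.2 c))) ∨
      ((av x + δ < av fun c => x (z.2 c)) ∨ ((av fun c => x (z.2 c)) + δ < av x))))))) ≤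
      2 * T * EU + (3 * T + 3) * ET :=
    (pb_or _ _).trans (add_le_add (pb_prod' _ (by positivity) e7)
      (pb_prod _ (by positivity) fun _ => e8))
  refine (pb_mono fun z hz => ?_).trans e9
  by_contra hcon
  simp only [not_or, not_exists, not_lt] at hcon
  obtain ⟨⟨g1, g2⟩, g3, g4, g5, g6, g7, g8⟩ := hcon
  refine absurd hz (not_lt.2 ?_)
  have k0 : av x = 1 / 2 := av_mb hn hS
  have k1 : av (fun i => x i * (av (wG G i) - W i)) ≤ ρ := by
    have := av_cut (S := S) G
    rw [← hx] at this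
    rw [hW]
    dsimp only
    rw [this, div_le_iff₀ (by positivity)]
    exact hc
  have k2 : av (fun b => lab (fun b => mb S (z.2 b)) b * (av (wS (wG G) z.2 b) -
      aU (wG G) z.1 (lab fun c => mb S (z.1 c)) (z.2 b))) ≤ ρ + 3 * δ := by
    have h1 : ∀ b, lab (fun b => mb S (z.2 b)) b * (av (wS (wG G) z.2 b) -
        aU (wG G) z.1 (lab fun c => mb S (z.1 c)) (z.2 b)) ≤
        x (z.2 b) * (av (wG G (z.2 b)) - W (z.2 b)) + 2 * δ := by
      intro b
      have e0 : lab (fun b => mb S (z.2 b)) b = x (z.2 b) := rfl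
      have e1 : av (wS (wG G) z.2 b) ≤ av (wG G (z.2 b)) + δ := g5 b
      have e2 : W (z.2 b) ≤ aU (wG G) z.1 (lab fun c => mb S (z.1 c)) (z.2 b) + δ := g2 b
      rw [e0]
      have h2 := hx0 (z.2 b)
      nlinarith
    refine (av_mono h1).trans ?_
    rw [av_add, av_const hT]
    linarith
  have k3 : av (fun b => (aU (wG G) z.1 (lab fun c => mb S (z.1 c)) (z.2 b) -
      av fun c => wS (wG G) z.2 b c * lab (fun b => mb S (z.2 b)) c) ^ 2) ≤ 4 * δ ^ 2 := by
    refine av_le (by positivity) fun b => ?_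
    have e1 : aU (wG G) z.1 (lab fun c => mb S (z.1 c)) (z.2 b) ≤ W (z.2 b) + δ := g1 b
    have e2 : W (z.2 b) ≤ aU (wG G) z.1 (lab fun c => mb S (z.1 c)) (z.2 b) + δ := g2 b
    have e3 : (av fun c => wS (wG G) z.2 b c * lab (fun b => mb S (z.2 b)) c) ≤ W (z.2 b) + δ :=
      g3 b
    have e4 : W (z.2 b) ≤ (av fun c => wS (wG G) z.2 b c * lab (fun b => mb S (z.2 b)) c) + δ :=
      g4 b
    have h1 : |aU (wG G) z.1 (lab fun c => mb S (z.1 c)) (z.2 b) -
      av fun c => wS (wG G) z.2 b c * lab (fun b => mb S (z.2 b)) c| ≤ 2 * δ := by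
      rw [abs_le]
      constructor <;> linarith
    rw [← sq_abs]
    have h2 := pow_le_pow_left₀ (abs_nonneg _) h1 2
    refine h2.trans (le_of_eq ?_)
    ring
  have k4 : (av (lab fun b => mb S (z.2 b)) - 1 / 2) ^ 2 ≤ δ ^ 2 := by
    have e1 : av (lab fun b => mb S (z.2 b)) ≤ av x + δ := g7
    have e2 : av x ≤ av (lab fun b => mb S (z.2 b)) + δ := g8
    rw [k0] at e1 e2
    rw [← sq_abs]
    refine pow_le_pow_left₀ (abs_nonneg _) ?_ 2
    rw [abs_le]
    constructor <;> linarith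
  unfold Phi
  have k5 := mul_le_mul_of_nonneg_left k3 hK
  have k6 := mul_le_mul_of_nonneg_left k4 hK
  linarith

end Pool.Agent.Y645.BU
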