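import Pool.Agent.Y645.BT.Defs

/-!
# Smoothed testers for all real parameters
-/

set_option autoImplicit false

namespace Pool.Agent.Y645.BT

open Classical in
/-- The probability that the verdict is wrong on a `ρ`-Bisection-preserving `σ`-perturbation of
`G₀`, for the algorithm with the parameters `e` and `s`. -/
noncomputable def Alg.errAt (A : Alg) (ρ : ℝ) (e s : ℕ) (σ : ℝ) {n : ℕ} (G₀ : Gr n) : ℝ :=
  (∑ G ∈ Finset.univ.filter (fun G : Gr n => Bisection ρ G ↔ Bisection ρ G₀),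
      wt σ G₀ G * A.wrong ρ e s G) /
    ∑ G ∈ Finset.univ.filter (fun G : Gr n => Bisection ρ G ↔ Bisection ρ G₀), wt σ G₀ G

/-- The algorithm is a smoothed tester for `ρ`-Bisection for all real `ε` and `σ`: it is given the
integers `e = ⌈1 / ε⌉` and `s = ⌈1 / σ⌉` and runs in time polynomial in `e` and `s`, and for all
`0 < σ ≤ 1 / 2` and `0 < ε < σ (1 / 4 - 2 ρ)` its error probability on property-preserving
`σ`-perturbations of graphs on `n` vertices (`n` even) is less than `1 / 3 + o(1)`. -/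
def Alg.TestsAll (A : Alg) (ρ : ℝ) : Prop :=
  ∀ ε σ : ℝ, 0 < ε → 0 < σ → σ ≤ 1 / 2 → ε < σ * (1 / 4 - 2 * ρ) →
    ∀ δ : ℝ, 0 < δ → ∃ n₀ : ℕ, ∀ n : ℕ, n₀ ≤ n → Even n → ∀ G₀ : Gr n,
      A.errAt ρ ⌈1 / ε⌉₊ ⌈1 / σ⌉₊ σ G₀ < 1 / 3 + δ

/-- A tester for all real parameters is a tester for the reciprocals of integers. -/
theorem Alg.TestsAll.tests {A : Alg} {ρ : ℝ} (h : A.TestsAll ρ) : A.Tests ρ := by
  intro e s he hs hes δ hδ
  have he' : (0 : ℝ) < e := by exact_mod_cast he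
  have hs' : (2 : ℝ) ≤ s := by exact_mod_cast hs
  obtain ⟨n₀, hn⟩ := h (1 / e) (1 / s) (by positivity) (by positivity)
    (by rw [div_le_div_iff₀ (by linarith) (by norm_num)]; linarith) hes δ hδ
  refine ⟨n₀, fun n h1 h2 G₀ => ?_⟩
  have h3 := hn n h1 h2 G₀
  rw [one_div_one_div, one_div_one_div, Nat.ceil_natCast, Nat.ceil_natCast] at h3
  exact h3

end Pool.Agent.Y645.BT
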