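import Pool.Agent.Y645.BU.Smooth

/-!
# The equivalence
-/

set_option autoImplicit false

namespace Pool.Agent.Y645.BU

open Pool.Agent.NPC Pool.Agent.Y645.BT

/-- Rational densities as fractions. -/
theorem rat_frac {ρ : ℚ} (h0 : 0 < ρ) (h8 : ρ < 1 / 8) :
    ∃ p q : ℕ, 0 < p ∧ 8 * p < q ∧ (ρ : ℝ) = (p : ℝ) / q := by
  have hnum : 0 < ρ.num := Rat.num_pos.2 h0
  obtain ⟨p, hp⟩ : ∃ p : ℕ, ρ.num = p := ⟨ρ.num.toNat, (Int.toNat_of_nonneg hnum.le).symm⟩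
  have hden : 0 < ρ.den := ρ.den_pos
  refine ⟨p, ρ.den, by omega, ?_, ?_⟩
  · have h1 : ρ = (p : ℚ) / (ρ.den : ℚ) := by
      conv_lhs => rw [← Rat.num_div_den ρ, hp]
      simp
    have h3 : (0 : ℚ) < ρ.den := by exact_mod_cast hden
    rw [h1, div_lt_div_iff₀ h3 (by norm_num)] at h8
    have h4 : (8 * p : ℚ) < ρ.den := by linarith
    exact_mod_cast h4
  · have h1 : (ρ : ℝ) = (ρ.num : ℝ) / ρ.den := by exact_mod_cast (Rat.num_div_den ρ).symm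
    rw [h1, hp]
    simp

/-- **The equivalence.** -/
theorem tester_iff {ρ : ℚ} (h0 : 0 < ρ) (h8 : ρ < 1 / 8) :
    ((∃ A : Alg, A.TestsAll (ρ : ℝ)) ↔ ∀ L : Set (List Bool), InNP L → InBPP L) ∧
    ((∃ A : Alg, A.Tests (ρ : ℝ)) ↔ ∀ L : Set (List Bool), InNP L → InBPP L) := by
  obtain ⟨p, q, hp, hq, hρ⟩ := rat_frac h0 h8
  have h1 : (∃ A : Alg, A.Tests (ρ : ℝ)) → ∀ L : Set (List Bool), InNP L → InBPP L :=
    fun h L hL => np_sub_bpp_rat h0 h8 h L hL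
  have h2 : (∀ L : Set (List Bool), InNP L → InBPP L) → ∃ A : Alg, A.TestsAll (ρ : ℝ) := by
    intro h
    rw [hρ]
    exact tester_of_bpp hq h
  have h3 : (∃ A : Alg, A.TestsAll (ρ : ℝ)) → ∃ A : Alg, A.Tests (ρ : ℝ) :=
    fun ⟨A, hA⟩ => ⟨A, hA.tests⟩
  exact ⟨⟨fun h => h1 (h3 h), h2⟩, ⟨h1, fun h => h3 (h2 h)⟩⟩

end Pool.Agent.Y645.BU
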