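import Pool.Agent.Y645.BU.Phi

/-!
# Sampling: exponential tail bounds
-/

set_option autoImplicit false

namespace Pool.Agent.Y645.BU

open Finset

/-! ### Fractions -/

section Frac

variable {Ω Ω' : Type} [Fintype Ω] [Fintype Ω']

open Classical in
/-- The fraction of the points with a property. -/
noncomputable def pb (P : Ω → Prop) : ℝ := ((univ.filter P).card : ℝ) / Fintype.card Ω

theorem pb_nonneg (P : Ω → Prop) : 0 ≤ pb P := by unfold pb; positivity

theorem pb_mono {P Q : Ω → Prop} (h : ∀ x, P x → Q x) : pb P ≤ pb Q := by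
  classical
  unfold pb
  refine div_le_div_of_nonneg_right ?_ (Nat.cast_nonneg _)
  exact_mod_cast Finset.card_le_card (Finset.monotone_filter_right _ fun x _ => h x)

theorem pb_le_one (P : Ω → Prop) : pb P ≤ 1 := by
  classical
  unfold pb
  refine div_le_one_of_le₀ ?_ (Nat.cast_nonneg _)
  exact_mod_cast (Finset.card_le_univ _)

theorem pb_or (P Q : Ω → Prop) : pb (fun x => P x ∨ Q x) ≤ pb P + pb Q := by
  classical
  unfold pb
  rw [← add_div]
  refine div_le_div_of_nonneg_right ?_ (Nat.cast_nonneg _)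
  have h : (univ.filter P ∪ univ.filter Q).card ≤ (univ.filter P).card + (univ.filter Q).card :=
    Finset.card_union_le _ _
  refine (Nat.cast_le.2 (Finset.card_le_card fun x hx => ?_)).trans
    (by exact_mod_cast h : ((univ.filter P ∪ univ.filter Q).card : ℝ) ≤ _)
  simpa using hx

theorem pb_exists {ι : Type} [Fintype ι] (P : ι → Ω → Prop) :
    pb (fun x => ∃ i, P i x) ≤ ∑ i, pb (P i) := by
  classical
  unfold pb
  rw [← Finset.sum_div]
  refine div_le_div_of_nonneg_right ?_ (Nat.cast_nonneg _)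
  have h : ((univ : Finset ι).biUnion fun i => univ.filter (P i)).card ≤
      ∑ i, (univ.filter (P i)).card := Finset.card_biUnion_le
  refine (Nat.cast_le.2 (Finset.card_le_card fun x hx => ?_)).trans
    (by exact_mod_cast h : (((univ : Finset ι).biUnion fun i => univ.filter (P i)).card : ℝ) ≤ _)
  simpa using hx

theorem pb_exists_le {ι : Type} [Fintype ι] (P : ι → Ω → Prop) {η : ℝ} (h : ∀ i, pb (P i) ≤ η) :
    pb (fun x => ∃ i, P i x) ≤ Fintype.card ι * η := by
  refine (pb_exists P).trans ((Finset.sum_le_sum fun i _ => h i).trans ?_)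
  simp

/-- Fractions in products, by the first coordinate. -/
theorem pb_prod (P : Ω × Ω' → Prop) {η : ℝ} (hη : 0 ≤ η) (h : ∀ x, pb (fun y => P (x, y)) ≤ η) :
    pb P ≤ η := by
  classical
  rcases Nat.eq_zero_or_pos (Fintype.card Ω * Fintype.card Ω') with h0 | h0
  · unfold pb
    rw [Fintype.card_prod, h0]
    simpa using hη
  have h1 : (0 : ℝ) < Fintype.card Ω := by exact_mod_cast Nat.pos_of_mul_pos_right h0
  have h2 : (0 : ℝ) < Fintype.card Ω' := by exact_mod_cast Nat.pos_of_mul_pos_left h0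
  have h3 : ((univ.filter P).card : ℝ) = ∑ x, ((univ.filter fun y => P (x, y)).card : ℝ) := by
    simp only [← Finset.sum_boole]
    rw [Fintype.sum_prod_type]
  unfold pb at h ⊢
  rw [h3, div_le_iff₀ (by rw [Fintype.card_prod]; push_cast; positivity)]
  have h4 : ∀ x ∈ (univ : Finset Ω), ((univ.filter fun y => P (x, y)).card : ℝ) ≤
      η * Fintype.card Ω' := by
    intro x _
    have := h x
    rwa [div_le_iff₀ h2] at this
  refine (Finset.sum_le_sum h4).trans ?_
  rw [Finset.sum_const, card_univ, nsmul_eq_mul, Fintype.card_prod]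
  push_cast
  linarith

/-- Fractions in products, by the second coordinate. -/
theorem pb_prod' (P : Ω × Ω' → Prop) {η : ℝ} (hη : 0 ≤ η) (h : ∀ y, pb (fun x => P (x, y)) ≤ η) :
    pb P ≤ η := by
  classical
  have h1 : pb P = pb (fun z : Ω' × Ω => P (z.2, z.1)) := by
    unfold pb
    congr 1
    · congr 1
      refine Finset.card_bij (fun z _ => (z.2, z.1)) ?_ ?_ ?_
      · intro z hz
        simpa using hz
      · intro z _ z' _ hzz
        simp only [Prod.mk.injEq] at hzz
        exact Prod.ext hzz.2 hzz.1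
      · intro z hz
        exact ⟨(z.2, z.1), by simpa using hz, rfl⟩
    · rw [Fintype.card_prod, Fintype.card_prod, Nat.mul_comm]
  rw [h1]
  exact pb_prod _ hη h

theorem pb_not [Nonempty Ω] (P : Ω → Prop) : pb (fun x => ¬ P x) = 1 - pb P := by
  classical
  have h0 : (Fintype.card Ω : ℝ) ≠ 0 := by exact_mod_cast Fintype.card_ne_zero
  have key : ∀ S₁ S₂ : Finset Ω, (∀ x, x ∈ S₁ ↔ ¬ P x) → (∀ x, x ∈ S₂ ↔ P x) →
      (S₁.card : ℝ) + S₂.card = Fintype.card Ω := by
    intro S₁ S₂ h1 h2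
    have h3 : S₁ = S₂ᶜ := by
      ext x
      rw [h1, mem_compl, h2]
    have h4 : S₂.card ≤ Fintype.card Ω := Finset.card_le_univ _
    rw [h3, card_compl, Nat.cast_sub h4]
    ring
  unfold pb
  rw [eq_sub_iff_add_eq, ← add_div, div_eq_one_iff_eq h0]
  exact key _ _ (fun x => by simp) (fun x => by simp)

end Frac

/-! ### Exponential moments -/

theorem exp_le_cosh {t B x : ℝ} (hB : 0 < B) (hx : |x| ≤ B) :
    Real.exp (t * x) ≤ Real.cosh (t * B) + x / B * Real.sinh (t * B) := by
  obtain ⟨h1, h2⟩ := abs_le.1 hx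
  have h3 : -1 ≤ x / B := by rw [le_div_iff₀ hB]; linarith
  have h4 : x / B ≤ 1 := by rw [div_le_iff₀ hB]; linarith
  have hc := (convexOn_exp.2 (Set.mem_univ (t * B)) (Set.mem_univ (-(t * B))) :
    ∀ ⦃a b : ℝ⦄, 0 ≤ a → 0 ≤ b → a + b = 1 → Real.exp (a • (t * B) + b • (-(t * B))) ≤
      a • Real.exp (t * B) + b • Real.exp (-(t * B))) (a := (1 + x / B) / 2)
    (b := (1 - x / B) / 2) (by linarith) (by linarith) (by ring)
  simp only [smul_eq_mul] at hc
  have e1 : (1 + x / B) / 2 * (t * B) + (1 - x / B) / 2 * -(t * B) = t * x := by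
    field_simp
    ring
  rw [e1] at hc
  refine hc.trans (le_of_eq ?_)
  rw [Real.cosh_eq, Real.sinh_eq]
  ring

theorem sum_exp_le {n : ℕ} (f : Fin n → ℝ) {t B : ℝ} (hB : 0 < B) (hf : ∀ j, |f j| ≤ B)
    (h0 : ∑ j, f j = 0) : ∑ j, Real.exp (t * f j) ≤ n * Real.exp ((t * B) ^ 2 / 2) := by
  refine (Finset.sum_le_sum fun j _ => exp_le_cosh (t := t) hB (hf j)).trans ?_
  rw [Finset.sum_add_distrib, ← Finset.sum_mul, ← Finset.sum_div, h0]
  simp only [sum_const, card_univ, Fintype.card_fin, nsmul_eq_mul, zero_div, zero_mul, add_zero]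
  exact mul_le_mul_of_nonneg_left (Real.cosh_le_exp_half_sq _) (Nat.cast_nonneg _)

/-- The exponential moment of a sum over the sample, of a kernel evaluated at one of the samples. -/
theorem kernel_mgf {n T : ℕ} (F : Fin n → Fin n → ℝ) {B t : ℝ} (hB : 0 < B) (ht : 0 ≤ t)
    (hF : ∀ i j, |F i j| ≤ B) (h0 : ∀ i, ∑ j, F i j = 0) (b : Fin T) :
    ∑ v : Fin T → Fin n, Real.exp (t * ∑ c, F (v b) (v c)) ≤
      (n : ℝ) ^ T * Real.exp (t * B + (t * B) ^ 2 / 2 * T) := by
  classical
  have hT : 0 < T := Nat.lt_of_le_of_lt (Nat.zero_le _) b.2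
  have e1 : ∀ v : Fin T → Fin n, Real.exp (t * ∑ c, F (v b) (v c)) =
      ∑ i, ∏ c, (if c = b then (if v c = i then Real.exp (t * F i (v c)) else 0)
        else Real.exp (t * F i (v c))) := by
    intro v
    have h1 : ∀ i, (∏ c, (if c = b then (if v c = i then Real.exp (t * F i (v c)) else 0)
        else Real.exp (t * F i (v c)))) =
        if v b = i then Real.exp (t * ∑ c, F (v b) (v c)) else 0 := by
      intro i
      by_cases hi : v b = i
      · rw [if_pos hi, Finset.mul_sum, Real.exp_sum]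
        refine Finset.prod_congr rfl fun c _ => ?_
        by_cases hc : c = b
        · subst hc
          rw [if_pos rfl, if_pos hi, hi]
        · rw [if_neg hc, hi]
      · rw [if_neg hi]
        exact Finset.prod_eq_zero (mem_univ b) (by rw [if_pos rfl, if_neg hi])
    rw [Finset.sum_congr rfl fun i _ => h1 i, Finset.sum_ite_eq]
    simp
  rw [Finset.sum_congr rfl fun v _ => e1 v, Finset.sum_comm]
  have e2 : ∀ i, (∑ v : Fin T → Fin n, ∏ c, (if c = b then
      (if v c = i then Real.exp (t * F i (v c)) else 0) else Real.exp (t * F i (v c)))) =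
      ∏ c : Fin T, ∑ j : Fin n, (if c = b then (if j = i then Real.exp (t * F i j) else 0)
        else Real.exp (t * F i j)) := by
    intro i
    rw [Finset.prod_univ_sum, Fintype.piFinset_univ]
  have e3 : ∀ i, (∏ c : Fin T, ∑ j : Fin n, (if c = b then
      (if j = i then Real.exp (t * F i j) else 0) else Real.exp (t * F i j))) ≤
      Real.exp (t * B) * (n * Real.exp ((t * B) ^ 2 / 2)) ^ (T - 1) := by
    intro i
    rw [← Finset.mul_prod_erase univ _ (mem_univ b)]
    have f1 : (∑ j : Fin n, (if b = b then (if j = i then Real.exp (t * F i j) else 0)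
        else Real.exp (t * F i j))) ≤ Real.exp (t * B) := by
      simp only [if_true]
      rw [Finset.sum_ite_eq']
      simp only [mem_univ, if_true]
      exact Real.exp_le_exp.2 (mul_le_mul_of_nonneg_left ((abs_le.1 (hF i i)).2) ht)
    have f2 : (∏ c ∈ univ.erase b, ∑ j : Fin n, (if c = b then
        (if j = i then Real.exp (t * F i j) else 0) else Real.exp (t * F i j))) ≤
        (n * Real.exp ((t * B) ^ 2 / 2)) ^ (T - 1) := by
      have f3 : ∀ c ∈ univ.erase b, (∑ j : Fin n, (if c = b then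
          (if j = i then Real.exp (t * F i j) else 0) else Real.exp (t * F i j))) ≤
          n * Real.exp ((t * B) ^ 2 / 2) := by
        intro c hc
        have hcb : c ≠ b := (mem_erase.1 hc).1
        simp only [if_neg hcb]
        exact sum_exp_le (F i) hB (hF i) (h0 i)
      refine (Finset.prod_le_prod (fun c _ => Finset.sum_nonneg fun j _ => ?_) f3).trans ?_
      · split_ifs <;> positivity
      · rw [Finset.prod_const, Finset.card_erase_of_mem (mem_univ b), card_univ, Fintype.card_fin]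
    refine mul_le_mul f1 f2 (Finset.prod_nonneg fun c _ => Finset.sum_nonneg fun j _ => ?_)
      (Real.exp_pos _).le
    split_ifs <;> positivity
  rw [Finset.sum_congr rfl fun i _ => e2 i]
  refine (Finset.sum_le_sum fun i _ => e3 i).trans ?_
  rw [Finset.sum_const, card_univ, Fintype.card_fin, nsmul_eq_mul]
  have e4 : (n : ℝ) * (Real.exp (t * B) * (n * Real.exp ((t * B) ^ 2 / 2)) ^ (T - 1)) =
      (n : ℝ) ^ T * (Real.exp (t * B) * Real.exp ((t * B) ^ 2 / 2) ^ (T - 1)) := by
    have h1 : (n : ℝ) ^ T = n * (n : ℝ) ^ (T - 1) := by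
      rw [← pow_succ', Nat.sub_add_cancel hT]
    rw [h1, mul_pow]
    ring
  rw [e4]
  refine mul_le_mul_of_nonneg_left ?_ (by positivity)
  rw [Real.exp_add]
  refine mul_le_mul_of_nonneg_left ?_ (Real.exp_pos _).le
  rw [← Real.exp_nat_mul]
  refine Real.exp_le_exp.2 ?_
  rw [mul_comm]
  refine mul_le_mul_of_nonneg_left ?_ (by positivity)
  exact_mod_cast Nat.sub_le _ _

/-- **The tail bound**, for centered kernels. -/
theorem tail {n T : ℕ} (F : Fin n → Fin n → ℝ) {B δ : ℝ} (hB : 0 < B) (hδ : 0 ≤ δ) (hδB : δ ≤ B)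
    (hF : ∀ i j, |F i j| ≤ B) (h0 : ∀ i, ∑ j, F i j = 0) (b : Fin T) :
    pb (fun v : Fin T → Fin n => δ < av fun c => F (v b) (v c)) ≤
      3 * Real.exp (-(δ ^ 2 * T / (2 * B ^ 2))) := by
  classical
  rcases Nat.eq_zero_or_pos n with hn | hn
  · subst hn
    unfold pb
    have : (Fintype.card (Fin T → Fin 0) : ℝ) = 0 := by
      have hT : T ≠ 0 := (Nat.lt_of_le_of_lt (Nat.zero_le _) b.2).ne'
      simp [hT]
    rw [this, div_zero]
    positivity
  have hT : 0 < T := Nat.lt_of_le_of_lt (Nat.zero_le _) b.2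
  have hT' : (0 : ℝ) < T := by exact_mod_cast hT
  have hn' : (0 : ℝ) < n := by exact_mod_cast hn
  have hmgf := kernel_mgf F (t := δ / B ^ 2) hB (by positivity) hF h0 b
  have h1 : ((univ.filter fun v : Fin T → Fin n => δ < av fun c => F (v b) (v c)).card : ℝ) *
      Real.exp (δ / B ^ 2 * (δ * T)) ≤
      ∑ v : Fin T → Fin n, Real.exp (δ / B ^ 2 * ∑ c, F (v b) (v c)) := by
    rw [← nsmul_eq_mul, ← Finset.sum_const]
    refine (Finset.sum_le_sum fun v hv => ?_).trans
      (Finset.sum_le_univ_sum_of_nonneg fun v => (Real.exp_pos _).le)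
    rw [mem_filter] at hv
    refine Real.exp_le_exp.2 (mul_le_mul_of_nonneg_left ?_ (by positivity))
    have h2 := hv.2
    unfold av at h2
    rw [lt_div_iff₀ hT'] at h2
    exact h2.le
  have h2 := h1.trans hmgf
  unfold pb
  rw [Fintype.card_fun, Fintype.card_fin, Fintype.card_fin]
  push_cast
  rw [div_le_iff₀ (by positivity)]
  have h3 : ((univ.filter fun v : Fin T → Fin n => δ < av fun c => F (v b) (v c)).card : ℝ) ≤
      (n : ℝ) ^ T * Real.exp (δ / B ^ 2 * B + (δ / B ^ 2 * B) ^ 2 / 2 * T -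
        δ / B ^ 2 * (δ * T)) := by
    rw [Real.exp_sub, ← mul_div_assoc, le_div_iff₀ (Real.exp_pos _)]
    exact h2
  refine h3.trans ?_
  rw [mul_comm]
  refine mul_le_mul_of_nonneg_right ?_ (by positivity)
  have h4 : δ / B ^ 2 * B + (δ / B ^ 2 * B) ^ 2 / 2 * T - δ / B ^ 2 * (δ * T) =
      δ / B + -(δ ^ 2 * T / (2 * B ^ 2)) := by
    field_simp
    ring
  rw [h4, Real.exp_add]
  refine mul_le_mul_of_nonneg_right ?_ (Real.exp_pos _).le
  have h5 : δ / B ≤ 1 := by rw [div_le_one hB]; exact hδB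
  exact (Real.exp_le_exp.2 h5).trans (by linarith [Real.exp_one_lt_d9])

/-- The tail bound for a kernel: the average over the sample is not much above the mean. -/
theorem tail_up {n T : ℕ} (φ : Fin n → Fin n → ℝ) {B δ : ℝ} (hB : 0 < B) (hδ : 0 ≤ δ)
    (hδB : δ ≤ 2 * B) (hφ : ∀ i j, |φ i j| ≤ B) (b : Fin T) :
    pb (fun v : Fin T → Fin n => av (φ (v b)) + δ < av fun c => φ (v b) (v c)) ≤
      3 * Real.exp (-(δ ^ 2 * T / (8 * B ^ 2))) := by
  have hT : 0 < T := Nat.lt_of_le_of_lt (Nat.zero_le _) b.2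
  rcases Nat.eq_zero_or_pos n with hn | hn
  · subst hn
    unfold pb
    have : (Fintype.card (Fin T → Fin 0) : ℝ) = 0 := by
      simp [hT.ne']
    rw [this, div_zero]
    positivity
  have hn' : (n : ℝ) ≠ 0 := by exact_mod_cast hn.ne'
  have h1 := tail (T := T) (fun i j => φ i j - av (φ i)) (B := 2 * B) (by linarith) hδ hδB
    (fun i j => by
      have h2 := hφ i j
      have h3 : |av (φ i)| ≤ B := av_abs_le hB.le (hφ i)
      rw [abs_le] at h2 h3 ⊢
      constructor <;> linarith)
    (fun i => by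
      rw [Finset.sum_sub_distrib]
      simp only [sum_const, card_univ, Fintype.card_fin, nsmul_eq_mul]
      unfold av
      field_simp
      ring) b
  have h2 : 2 * (2 * B) ^ 2 = 8 * B ^ 2 := by ring
  rw [h2] at h1
  refine (pb_mono fun v hv => ?_).trans h1
  have h3 : (av fun c => φ (v b) (v c) - av (φ (v b))) =
      (av fun c => φ (v b) (v c)) - av (φ (v b)) := by
    rw [av_sub, av_const hT]
  rw [h3]
  linarith

/-- The tail bound for a kernel: the average over the sample is not much below the mean. -/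
theorem tail_down {n T : ℕ} (φ : Fin n → Fin n → ℝ) {B δ : ℝ} (hB : 0 < B) (hδ : 0 ≤ δ)
    (hδB : δ ≤ 2 * B) (hφ : ∀ i j, |φ i j| ≤ B) (b : Fin T) :
    pb (fun v : Fin T → Fin n => (av fun c => φ (v b) (v c)) + δ < av (φ (v b))) ≤
      3 * Real.exp (-(δ ^ 2 * T / (8 * B ^ 2))) := by
  have h1 := tail_up (T := T) (fun i j => -φ i j) hB hδ hδB
    (fun i j => by rw [abs_neg]; exact hφ i j) b
  refine (pb_mono fun v hv => ?_).trans h1
  have neg : ∀ {k : ℕ} (f : Fin k → ℝ), av (fun c => -f c) = -av f := by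
    intro k f
    have := av_mul_left (-1) f
    simpa using this
  rw [neg (φ (v b)), neg (fun c => φ (v b) (v c))]
  linarith

/-- Tail bounds for functions. -/
theorem fun_up {n T : ℕ} (f : Fin n → ℝ) {B δ : ℝ} (hT : 0 < T) (hB : 0 < B) (hδ : 0 ≤ δ)
    (hδB : δ ≤ 2 * B) (hf : ∀ i, |f i| ≤ B) :
    pb (fun v : Fin T → Fin n => av f + δ < av fun c => f (v c)) ≤
      3 * Real.exp (-(δ ^ 2 * T / (8 * B ^ 2))) :=
  tail_up (fun _ j => f j) hB hδ hδB (fun _ j => hf j) ⟨0, hT⟩

theorem fun_down {n T : ℕ} (f : Fin n → ℝ) {B δ : ℝ} (hT : 0 < T) (hB : 0 < B) (hδ : 0 ≤ δ)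
    (hδB : δ ≤ 2 * B) (hf : ∀ i, |f i| ≤ B) :
    pb (fun v : Fin T → Fin n => (av fun c => f (v c)) + δ < av f) ≤
      3 * Real.exp (-(δ ^ 2 * T / (8 * B ^ 2))) :=
  tail_down (fun _ j => f j) hB hδ hδB (fun _ j => hf j) ⟨0, hT⟩

end Pool.Agent.Y645.BU
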