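import Pool.Agent.Y645.BU.Sound
import Pool.Agent.Y645.BT.Conc

/-!
# The relaxation is tight for graphs without small bisections
-/

set_option autoImplicit false

namespace Pool.Agent.Y645.BU

open Finset Pool.Agent.Y645.BT

variable {n : ℕ}

/-- The adjacency matrix. -/
def wG (G : Gr n) (i j : Fin n) : ℝ := ind (adj G i j)

theorem wG_bd (G : Gr n) (i j : Fin n) : 0 ≤ wG G i j ∧ wG G i j ≤ 1 := by
  unfold wG ind
  split_ifs <;> norm_num

theorem wG_self (G : Gr n) (i : Fin n) : wG G i i = 0 := by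
  unfold wG
  rw [adj_self, ind_false]

/-! ### Balancing -/

theorem cut_le (G : Gr n) (S S' : Finset (Fin n)) :
    cut G S' ≤ cut G S + ((S' \ S).card + (S \ S').card) * n := by
  have h1 : ((S' ×ˢ S'ᶜ).filter fun p => adj G p.1 p.2 = true) ⊆
      ((S ×ˢ Sᶜ).filter fun p => adj G p.1 p.2 = true) ∪
        ((S' \ S) ×ˢ univ ∪ univ ×ˢ (S \ S')) := by
    rintro ⟨x, y⟩ h
    simp only [mem_filter, mem_product, mem_compl, mem_union, mem_sdiff, mem_univ, and_true,
      true_and] at h ⊢
    tauto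
  have h2 := (Finset.card_le_card h1).trans (Finset.card_union_le _ _)
  have h3 := Finset.card_union_le ((S' \ S) ×ˢ (univ : Finset (Fin n))) (univ ×ˢ (S \ S'))
  rw [card_product, card_product, card_univ, Fintype.card_fin] at h3
  unfold cut
  have h4 : n * (S \ S').card = (S \ S').card * n := Nat.mul_comm _ _
  rw [Nat.add_mul]
  omega

theorem balance {h : ℕ} (hn : n = 2 * h) (G : Gr n) (S : Finset (Fin n)) :
    ∃ S' : Finset (Fin n), 2 * S'.card = n ∧
      (cut G S' : ℝ) ≤ cut G S + |(S.card : ℝ) - n / 2| * n := by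
  have hn' : (n : ℝ) / 2 = h := by
    rw [hn]; push_cast; ring
  rcases le_total S.card h with hS | hS
  · obtain ⟨S', h1, h2⟩ := Finset.exists_superset_card_eq hS
      (by rw [Fintype.card_fin, hn]; omega)
    refine ⟨S', by omega, ?_⟩
    have h3 := cut_le G S S'
    have h4 : (S \ S').card = 0 := by
      rw [Finset.sdiff_eq_empty_iff_subset.2 h1, card_empty]
    have h5 : (S' \ S).card = h - S.card := by
      rw [Finset.card_sdiff_of_subset h1, h2]
    rw [h4, h5, Nat.add_zero] at h3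
    have h6 : (cut G S' : ℝ) ≤ cut G S + ((h : ℝ) - S.card) * n := by
      have : ((cut G S' : ℕ) : ℝ) ≤ ((cut G S + (h - S.card) * n : ℕ) : ℝ) := by
        exact_mod_cast h3
      rw [Nat.cast_add, Nat.cast_mul, Nat.cast_sub hS] at this
      exact this
    refine h6.trans (add_le_add le_rfl (mul_le_mul_of_nonneg_right ?_ (Nat.cast_nonneg _)))
    rw [hn', abs_sub_comm]
    exact le_abs_self _
  · obtain ⟨S', h1, h2⟩ := Finset.exists_subset_card_eq hS
    refine ⟨S', by omega, ?_⟩
    have h3 := cut_le G S S'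
    have h4 : (S' \ S).card = 0 := by
      rw [Finset.sdiff_eq_empty_iff_subset.2 h1, card_empty]
    have h5 : (S \ S').card = S.card - h := by
      rw [Finset.card_sdiff_of_subset h1, h2]
    rw [h4, h5, Nat.zero_add] at h3
    have h6 : (cut G S' : ℝ) ≤ cut G S + ((S.card : ℝ) - h) * n := by
      have : ((cut G S' : ℕ) : ℝ) ≤ ((cut G S + (S.card - h) * n : ℕ) : ℝ) := by
        exact_mod_cast h3
      rw [Nat.cast_add, Nat.cast_mul, Nat.cast_sub hS] at this
      exact this
    refine h6.trans (add_le_add le_rfl (mul_le_mul_of_nonneg_right ?_ (Nat.cast_nonneg _)))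
    rw [hn']
    exact le_abs_self _

/-! ### Rounding -/

/-- A quadratic polynomial. -/
def qf (A : Fin n → Fin n → ℝ) (b : Fin n → ℝ) (x : Fin n → ℝ) : ℝ :=
  (∑ i, ∑ j, A i j * (x i * x j)) + ∑ i, b i * x i

theorem qf_line {A : Fin n → Fin n → ℝ} (hA : ∀ i, A i i = 0) (b z : Fin n → ℝ) (k : Fin n)
    (t : ℝ) : qf A b (fun i => z i + t * (if i = k then 1 else 0)) = qf A b z +
      t * ((∑ i, ∑ j, A i j * (z i * (if j = k then 1 else 0) + (if i = k then 1 else 0) * z j)) +
        ∑ i, b i * (if i = k then 1 else 0)) := by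
  have h2 : ∑ i, ∑ j, A i j * ((if i = k then (1 : ℝ) else 0) * (if j = k then 1 else 0)) = 0 := by
    simp [hA]
  have h3 : ∑ i, ∑ j, A i j * ((z i + t * (if i = k then 1 else 0)) *
      (z j + t * (if j = k then 1 else 0))) = (∑ i, ∑ j, A i j * (z i * z j)) +
      t * (∑ i, ∑ j, A i j * (z i * (if j = k then 1 else 0) + (if i = k then 1 else 0) * z j)) +
      t ^ 2 * ∑ i, ∑ j, A i j * ((if i = k then (1 : ℝ) else 0) * (if j = k then 1 else 0)) := by
    simp only [Finset.mul_sum, ← Finset.sum_add_distrib]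
    refine Finset.sum_congr rfl fun i _ => Finset.sum_congr rfl fun j _ => ?_
    ring
  have h4 : ∑ i, b i * (z i + t * (if i = k then 1 else 0)) = (∑ i, b i * z i) +
      t * ∑ i, b i * (if i = k then 1 else 0) := by
    simp only [Finset.mul_sum, ← Finset.sum_add_distrib]
    refine Finset.sum_congr rfl fun i _ => ?_
    ring
  unfold qf
  rw [h3, h4, h2]
  ring

theorem round {A : Fin n → Fin n → ℝ} (hA : ∀ i, A i i = 0) (b : Fin n → ℝ) {x : Fin n → ℝ}
    (hx : ∀ i, 0 ≤ x i ∧ x i ≤ 1) :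
    ∃ X : Fin n → ℝ, (∀ i, X i = 0 ∨ X i = 1) ∧ qf A b X ≤ qf A b x := by
  classical
  have key : ∀ s : Finset (Fin n), ∃ X : Fin n → ℝ, (∀ i ∈ s, X i = 0 ∨ X i = 1) ∧
      (∀ i, 0 ≤ X i ∧ X i ≤ 1) ∧ qf A b X ≤ qf A b x := by
    intro s
    induction s using Finset.induction_on with
    | empty => exact ⟨x, by simp, hx, le_rfl⟩
    | insert k s hk ih =>
      obtain ⟨X, h1, h2, h3⟩ := ih
      set z : Fin n → ℝ := fun i => if i = k then 0 else X i with hz
      have e1 : X = fun i => z i + X k * (if i = k then 1 else 0) := by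
        funext i
        simp only [hz]
        by_cases hi : i = k
        · subst hi; simp
        · simp [hi]
      obtain ⟨β, hβ⟩ : ∃ β, ∀ t, qf A b (fun i => z i + t * (if i = k then 1 else 0)) =
          qf A b z + t * β := ⟨_, fun t => qf_line hA b z k t⟩
      have e2 : qf A b X = qf A b z + X k * β := by
        conv_lhs => rw [e1]
        exact hβ (X k)
      have hmem : ∀ t : ℝ, (t = 0 ∨ t = 1) → (∀ i ∈ insert k s,
          (fun i => z i + t * (if i = k then 1 else 0)) i = 0 ∨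
            (fun i => z i + t * (if i = k then 1 else 0)) i = 1) ∧
          (∀ i, 0 ≤ (fun i => z i + t * (if i = k then 1 else 0)) i ∧
            (fun i => z i + t * (if i = k then 1 else 0)) i ≤ 1) := by
        intro t ht
        constructor
        · intro i hi
          simp only [hz]
          by_cases hik : i = k
          · subst hik
            simpa using ht
          · have : i ∈ s := by
              rcases mem_insert.1 hi with h | h
              · exact absurd h hik
              · exact h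
            simpa [hik] using h1 i this
        · intro i
          simp only [hz]
          by_cases hik : i = k
          · subst hik
            rcases ht with rfl | rfl <;> norm_num
          · simpa [hik] using h2 i
      rcases le_total 0 β with hb | hb
      · obtain ⟨m1, m2⟩ := hmem 0 (Or.inl rfl)
        refine ⟨_, m1, m2, ?_⟩
        rw [hβ 0]
        have := mul_nonneg (h2 k).1 hb
        linarith
      · obtain ⟨m1, m2⟩ := hmem 1 (Or.inr rfl)
        refine ⟨_, m1, m2, ?_⟩
        rw [hβ 1]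
        have := (h2 k).2
        nlinarith
  obtain ⟨X, h1, _, h3⟩ := key univ
  exact ⟨X, fun i => h1 i (mem_univ i), h3⟩

/-! ### The lower bound -/

/-- The penalised cut. -/
noncomputable def Qc (K : ℝ) (w : Fin n → Fin n → ℝ) (x : Fin n → ℝ) : ℝ :=
  av (fun i => x i * (av (w i) - av fun j => w i j * x j)) + K * (av x - 1 / 2) ^ 2

theorem Qc_le_Phi {K : ℝ} (hK : 0 < K) (w : Fin n → Fin n → ℝ) (a : Fin n → ℝ) {x : Fin n → ℝ}
    (hx : ∀ i, 0 ≤ x i ∧ x i ≤ 1) : Qc K w x - 1 / (4 * K) ≤ Phi K w a x := by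
  have h1 : av (fun i => x i * (av (w i) - av fun j => w i j * x j)) - 1 / (4 * K) ≤
      av (fun i => x i * (av (w i) - a i)) +
        K * av (fun i => (a i - av fun j => w i j * x j) ^ 2) := by
    rw [← av_mul_left, ← av_add]
    have h0 : (0 : ℝ) ≤ 1 / (4 * K) := by positivity
    have h2 : ∀ i, x i * (av (w i) - av fun j => w i j * x j) - 1 / (4 * K) ≤
        x i * (av (w i) - a i) + K * (a i - av fun j => w i j * x j) ^ 2 := by
      intro i
      obtain ⟨hx0, hx1⟩ := hx i
      generalize (av fun j => w i j * x j) = W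
      generalize av (w i) = D
      have h3 : 0 ≤ K * (a i - W - x i / (2 * K)) ^ 2 := by positivity
      have h4 : K * (a i - W - x i / (2 * K)) ^ 2 = K * (a i - W) ^ 2 - x i * (a i - W) +
          x i ^ 2 * (1 / (4 * K)) := by
        field_simp
        ring
      have h5 : x i ^ 2 * (1 / (4 * K)) ≤ 1 * (1 / (4 * K)) :=
        mul_le_mul_of_nonneg_right (by nlinarith) h0
      nlinarith
    rcases Nat.eq_zero_or_pos n with hn | hn
    · subst hn
      simp [av]
      positivity
    · have h3 := av_mono h2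
      rw [av_sub, av_const hn] at h3
      exact h3
  unfold Qc Phi
  linarith

theorem Qc_qf (hn : 0 < n) (K : ℝ) (w : Fin n → Fin n → ℝ) (x : Fin n → ℝ) :
    Qc K w x + K / (n : ℝ) ^ 2 * ∑ i, (x i - x i ^ 2) =
      qf (fun i j => -(w i j) / (n : ℝ) ^ 2 + if i = j then 0 else K / (n : ℝ) ^ 2)
        (fun i => av (w i) / n - K / n + K / (n : ℝ) ^ 2) x + K / 4 := by
  have hn' : (n : ℝ) ≠ 0 := by exact_mod_cast hn.ne'
  have e1 : av (fun i => x i * (av (w i) - av fun j => w i j * x j)) =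
      (∑ i, x i * av (w i)) / n - (∑ i, ∑ j, w i j * (x i * x j)) / (n : ℝ) ^ 2 := by
    unfold av
    rw [pow_two, ← div_div, ← sub_div, Finset.sum_div (s := univ)
      (f := fun i => ∑ j, w i j * (x i * x j)), ← Finset.sum_sub_distrib]
    congr 1
    refine Finset.sum_congr rfl fun i _ => ?_
    have f1 : ∑ j, w i j * (x i * x j) = x i * ∑ j, w i j * x j := by
      rw [Finset.mul_sum]
      refine Finset.sum_congr rfl fun j _ => ?_
      ring
    rw [f1]
    dsimp only
    ring
  have e2 : (∑ i, ∑ j, (-(w i j) / (n : ℝ) ^ 2 + if i = j then 0 else K / (n : ℝ) ^ 2) *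
      (x i * x j)) = -(∑ i, ∑ j, w i j * (x i * x j)) / (n : ℝ) ^ 2 +
      K / (n : ℝ) ^ 2 * ((∑ i, x i) ^ 2 - ∑ i, x i ^ 2) := by
    have f1 : (∑ i, x i) ^ 2 = ∑ i, ∑ j, x i * x j := by
      rw [pow_two, Finset.sum_mul_sum]
    have f2 : ∑ i, x i ^ 2 = ∑ i, ∑ j, if i = j then x i * x j else 0 := by
      refine Finset.sum_congr rfl fun i _ => ?_
      rw [Finset.sum_ite_eq, if_pos (mem_univ i), pow_two]
    rw [f1, f2, ← Finset.sum_sub_distrib, Finset.mul_sum, neg_div, Finset.sum_div,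
      ← Finset.sum_neg_distrib, ← Finset.sum_add_distrib]
    refine Finset.sum_congr rfl fun i _ => ?_
    rw [← Finset.sum_sub_distrib, Finset.mul_sum, Finset.sum_div, ← Finset.sum_neg_distrib,
      ← Finset.sum_add_distrib]
    refine Finset.sum_congr rfl fun j _ => ?_
    split_ifs with hij
    · ring
    · ring
  have e3 : (∑ i, (av (w i) / n - K / n + K / (n : ℝ) ^ 2) * x i) =
      (∑ i, x i * av (w i)) / n + (K / (n : ℝ) ^ 2 - K / n) * ∑ i, x i := by
    rw [Finset.sum_div, Finset.mul_sum, ← Finset.sum_add_distrib]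
    refine Finset.sum_congr rfl fun i _ => ?_
    ring
  unfold Qc qf
  rw [e1, e2, e3, Finset.sum_sub_distrib]
  unfold av
  field_simp
  ring

theorem Qc_cut (hn : 0 < n) (G : Gr n) (K : ℝ) {X : Fin n → ℝ} (hX : ∀ i, X i = 0 ∨ X i = 1) :
    ∃ S : Finset (Fin n), Qc K (wG G) X = (cut G S : ℝ) / (n : ℝ) ^ 2 +
      K * ((S.card : ℝ) / n - 1 / 2) ^ 2 := by
  classical
  have hn' : (n : ℝ) ≠ 0 := by exact_mod_cast hn.ne'
  refine ⟨univ.filter fun i => X i = 1, ?_⟩
  have s1 : ∀ g : Fin n → ℝ, ∑ u ∈ univ.filter (fun i => X i = 1), g u = ∑ u, X u * g u := by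
    intro g
    rw [Finset.sum_filter]
    refine Finset.sum_congr rfl fun u _ => ?_
    rcases hX u with h | h <;> simp [h]
  have s2 : ∀ g : Fin n → ℝ, ∑ u ∈ (univ.filter (fun i => X i = 1))ᶜ, g u =
      ∑ u, (1 - X u) * g u := by
    intro g
    rw [Finset.compl_filter, Finset.sum_filter]
    refine Finset.sum_congr rfl fun u _ => ?_
    rcases hX u with h | h <;> simp [h]
  have h1 : ((univ.filter fun i => X i = 1).card : ℝ) = ∑ i, X i := by
    have := s1 (fun _ => 1)
    simpa using this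
  have h2 : (cut G (univ.filter fun i => X i = 1) : ℝ) =
      ∑ i, X i * ∑ j, (1 - X j) * wG G i j := by
    rw [← s1]
    have h3 : (cut G (univ.filter fun i => X i = 1) : ℝ) =
        ∑ u ∈ univ.filter (fun i => X i = 1), ∑ v ∈ (univ.filter (fun i => X i = 1))ᶜ,
          wG G u v := by
      unfold cut wG ind
      rw [← Finset.sum_product', Finset.sum_boole]
    rw [h3]
    exact Finset.sum_congr rfl fun u _ => s2 _
  have h4 : av (fun i => X i * (av (wG G i) - av fun j => wG G i j * X j)) =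
      (cut G (univ.filter fun i => X i = 1) : ℝ) / (n : ℝ) ^ 2 := by
    rw [h2]
    unfold av
    rw [pow_two, ← div_div]
    congr 1
    rw [Finset.sum_div]
    refine Finset.sum_congr rfl fun i _ => ?_
    have f1 : ∑ j, (1 - X j) * wG G i j = (∑ j, wG G i j) - ∑ j, wG G i j * X j := by
      rw [← Finset.sum_sub_distrib]
      refine Finset.sum_congr rfl fun j _ => ?_
      ring
    rw [f1]
    dsimp only
    ring
  unfold Qc
  rw [h4, h1]
  rfl

/-- **The lower bound for the relaxation.** -/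
theorem lower {h : ℕ} (hn : n = 2 * h) (hn0 : 0 < n) {G : Gr n} {κ K : ℝ} (hK : 0 < K)
    (hκ : ∀ S : Finset (Fin n), 2 * S.card = n → κ * (n : ℝ) ^ 2 ≤ cut G S)
    (a : Fin n → ℝ) {x : Fin n → ℝ} (hx : ∀ i, 0 ≤ x i ∧ x i ≤ 1) :
    κ - 1 / (2 * K) - K / (4 * n) ≤ Phi K (wG G) a x := by
  have hn' : (0 : ℝ) < n := by exact_mod_cast hn0
  refine le_trans ?_ (Qc_le_Phi hK (wG G) a hx)
  have h1 := Qc_qf hn0 K (wG G) x
  obtain ⟨X, hX, hle⟩ := round
    (A := fun i j => -(wG G i j) / (n : ℝ) ^ 2 + if i = j then 0 else K / (n : ℝ) ^ 2)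
    (fun i => by simp [wG_self]) (fun i => av (wG G i) / n - K / n + K / (n : ℝ) ^ 2) hx
  have h2 := Qc_qf hn0 K (wG G) X
  have h3 : ∑ i, (X i - X i ^ 2) = 0 := by
    refine Finset.sum_eq_zero fun i _ => ?_
    rcases hX i with h | h <;> rw [h] <;> norm_num
  rw [h3, mul_zero, add_zero] at h2
  have h4 : K / (n : ℝ) ^ 2 * ∑ i, (x i - x i ^ 2) ≤ K / (4 * n) := by
    have h5 : ∑ i, (x i - x i ^ 2) ≤ n * (1 / 4) := by
      refine (Finset.sum_le_sum fun i _ => (?_ : x i - x i ^ 2 ≤ 1 / 4)).trans ?_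
      · nlinarith [sq_nonneg (x i - 1 / 2)]
      · rw [Finset.sum_const, card_univ, Fintype.card_fin, nsmul_eq_mul]
    have h6 : K / (n : ℝ) ^ 2 * ∑ i, (x i - x i ^ 2) ≤ K / (n : ℝ) ^ 2 * (n * (1 / 4)) :=
      mul_le_mul_of_nonneg_left h5 (by positivity)
    refine h6.trans (le_of_eq ?_)
    field_simp
  obtain ⟨S, hS⟩ := Qc_cut hn0 G K hX
  obtain ⟨S', hS', hcut⟩ := balance hn G S
  have h7 := hκ S' hS'
  have h8 : κ ≤ (cut G S : ℝ) / (n : ℝ) ^ 2 + |(S.card : ℝ) / n - 1 / 2| := by
    have e1 : |(S.card : ℝ) - n / 2| = |(S.card : ℝ) / n - 1 / 2| * n := by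
      rw [← abs_of_pos hn', ← abs_mul, abs_of_pos hn']
      congr 1
      field_simp
    rw [e1] at hcut
    have h9 : κ * (n : ℝ) ^ 2 ≤ ((cut G S : ℝ) / (n : ℝ) ^ 2 + |(S.card : ℝ) / n - 1 / 2|) *
        (n : ℝ) ^ 2 := by
      refine (h7.trans hcut).trans (le_of_eq ?_)
      field_simp
    exact le_of_mul_le_mul_right h9 (by positivity)
  have h10 : |(S.card : ℝ) / n - 1 / 2| ≤ K * ((S.card : ℝ) / n - 1 / 2) ^ 2 + 1 / (4 * K) := by
    rw [← sq_abs ((S.card : ℝ) / n - 1 / 2)]
    generalize |(S.card : ℝ) / n - 1 / 2| = t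
    have h11 : 0 ≤ K * (t - 1 / (2 * K)) ^ 2 := by positivity
    have h12 : K * (t - 1 / (2 * K)) ^ 2 = K * t ^ 2 - t + 1 / (4 * K) := by
      field_simp
      ring
    linarith
  have h13 : (1 : ℝ) / (2 * K) = 1 / (4 * K) + 1 / (4 * K) := by
    field_simp
    ring
  rw [h13]
  linarith

end Pool.Agent.Y645.BU
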