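import Pool.Agent.Y645.BU.ChkPoly

/-!
# The choice of the parameters
-/

set_option autoImplicit false

namespace Pool.Agent.Y645.BU

theorem exp_neg_le {Z : ℝ} (hZ : 0 < Z) : Real.exp (-Z) ≤ 24 / Z ^ 4 := by
  have h := Real.pow_div_factorial_le_exp Z hZ.le 4
  rw [Real.exp_neg, inv_eq_one_div, div_le_div_iff₀ (Real.exp_pos _) (by positivity)]
  have h2 : ((Nat.factorial 4 : ℕ) : ℝ) = 24 := by norm_num [Nat.factorial]
  rw [h2, div_le_iff₀ (by norm_num)] at h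
  linarith

section

variable {q s : ℕ}

theorem zZ_cast (q s : ℕ) : (zZ q s : ℝ) = 131072 * (zg q s : ℝ) ^ 4 := by
  unfold zZ
  push_cast
  ring

theorem zu_cast (q s : ℕ) : (zu q s : ℝ) = (zZ q s : ℝ) ^ 2 := by
  unfold zu
  push_cast
  ring

theorem zT_cast (q s : ℕ) : (zT q s : ℝ) = 2 * (zZ q s : ℝ) ^ 3 := by
  unfold zT zw zu
  push_cast
  ring

theorem zg_pos (hq : 0 < q) (hs : 0 < s) : 0 < zg q s := by unfold zg; positivity

theorem zZ_pos (hq : 0 < q) (hs : 0 < s) : 0 < zZ q s := by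
  have := zg_pos hq hs
  unfold zZ
  positivity

theorem zu_pos (hq : 0 < q) (hs : 0 < s) : 0 < zu q s := by
  have := zZ_pos hq hs
  unfold zu
  positivity

theorem zw_pos (hq : 0 < q) (hs : 0 < s) : 0 < zw q s := by
  have := zZ_pos hq hs
  unfold zw
  positivity

theorem zT_pos (hq : 0 < q) (hs : 0 < s) : 0 < zT q s :=
  Nat.mul_pos (zw_pos hq hs) (zu_pos hq hs)

theorem g_ge (hq : 0 < q) (hs : 0 < s) : (1 : ℝ) ≤ zg q s := by
  exact_mod_cast zg_pos hq hs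

theorem Z_ge (hq : 0 < q) (hs : 0 < s) : (131072 : ℝ) ≤ zZ q s := by
  rw [zZ_cast]
  have h := g_ge hq hs
  have : (1 : ℝ) ≤ (zg q s : ℝ) ^ 4 := one_le_pow₀ h
  linarith

/-- The failure probability for graphs with the property. -/
theorem fail_yes (hq : 0 < q) (hs : 0 < s) {δ : ℝ} (hδ : δ = 1 / (16 * zg q s)) :
    2 * (zT q s : ℝ) * (3 * Real.exp (-(δ ^ 2 * zu q s / 8))) +
      (3 * zT q s + 3) * (3 * Real.exp (-(δ ^ 2 * zT q s / 8))) ≤ 1 / 100 := by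
  have hg := g_ge hq hs
  have hZ := Z_ge hq hs
  have hZ0 : (0 : ℝ) < zZ q s := by linarith
  have hg2 : (1 : ℝ) ≤ (zg q s : ℝ) ^ 2 := one_le_pow₀ hg
  have hk : (2048 : ℝ) * (zg q s : ℝ) ^ 2 ≤ zZ q s := by
    rw [zZ_cast]
    nlinarith [mul_nonneg (sub_nonneg.2 hg2) (by positivity : (0 : ℝ) ≤ (zg q s : ℝ) ^ 2)]
  have hδ2 : δ ^ 2 / 8 = 1 / (2048 * (zg q s : ℝ) ^ 2) := by
    rw [hδ]
    field_simp
    norm_num
  have e1 : (zZ q s : ℝ) ≤ δ ^ 2 * zu q s / 8 := by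
    have h1 : δ ^ 2 * zu q s / 8 = (zZ q s : ℝ) * (zZ q s / (2048 * (zg q s : ℝ) ^ 2)) := by
      rw [zu_cast, mul_div_right_comm, hδ2]
      ring
    rw [h1]
    have h2 : 1 ≤ (zZ q s : ℝ) / (2048 * (zg q s : ℝ) ^ 2) := by
      rw [le_div_iff₀ (by positivity)]
      linarith
    nlinarith
  have e2 : (zZ q s : ℝ) ≤ δ ^ 2 * zT q s / 8 := by
    refine e1.trans ?_
    have h1 : (zu q s : ℝ) ≤ zT q s := by
      rw [zu_cast, zT_cast]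
      nlinarith [sq_nonneg (zZ q s : ℝ)]
    have h2 := mul_le_mul_of_nonneg_left h1 (sq_nonneg δ)
    linarith
  have x1 : Real.exp (-(δ ^ 2 * zu q s / 8)) ≤ 24 / (zZ q s : ℝ) ^ 4 :=
    (Real.exp_le_exp.2 (by linarith)).trans (exp_neg_le hZ0)
  have x2 : Real.exp (-(δ ^ 2 * zT q s / 8)) ≤ 24 / (zZ q s : ℝ) ^ 4 :=
    (Real.exp_le_exp.2 (by linarith)).trans (exp_neg_le hZ0)
  have hT0 : (0 : ℝ) ≤ zT q s := Nat.cast_nonneg _
  have y1 := mul_le_mul_of_nonneg_left (mul_le_mul_of_nonneg_left x1 (by norm_num : (0 : ℝ) ≤ 3))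
    (by positivity : (0 : ℝ) ≤ 2 * (zT q s : ℝ))
  have y2 := mul_le_mul_of_nonneg_left (mul_le_mul_of_nonneg_left x2 (by norm_num : (0 : ℝ) ≤ 3))
    (by positivity : (0 : ℝ) ≤ 3 * (zT q s : ℝ) + 3)
  refine (add_le_add y1 y2).trans ?_
  rw [zT_cast]
  have y3 : 2 * (2 * (zZ q s : ℝ) ^ 3) * (3 * (24 / (zZ q s : ℝ) ^ 4)) +
      (3 * (2 * (zZ q s : ℝ) ^ 3) + 3) * (3 * (24 / (zZ q s : ℝ) ^ 4)) =
      (720 * (zZ q s : ℝ) ^ 3 + 216) / (zZ q s : ℝ) ^ 4 := by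
    field_simp
    ring
  rw [y3, div_le_iff₀ (by positivity)]
  have y4 : (1 : ℝ) ≤ (zZ q s : ℝ) ^ 3 := one_le_pow₀ (by linarith)
  have y5 : (zZ q s : ℝ) ^ 4 = (zZ q s : ℝ) ^ 3 * zZ q s := by ring
  rw [y5]
  nlinarith

/-- The failure probability for graphs far from the property. -/
theorem fail_no (hq : 0 < q) (hs : 0 < s) {δ K : ℝ} (hδ : δ = 1 / (16 * zg q s))
    (hK : K = 2 * zg q s) :
    2 ^ zu q s * (((zT q s : ℝ) + 2) *
      (3 * Real.exp (-(δ ^ 2 * zT q s / (8 * (3 * K + 2) ^ 2))))) ≤ 1 / 100 := by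
  have hg := g_ge hq hs
  have hZ := Z_ge hq hs
  have hZ0 : (0 : ℝ) < zZ q s := by linarith
  have hT0 : (0 : ℝ) < zT q s := by exact_mod_cast zT_pos hq hs
  have e1 : 2 * (zZ q s : ℝ) ^ 2 ≤ δ ^ 2 * zT q s / (8 * (3 * K + 2) ^ 2) := by
    have h1 : (8 * (3 * K + 2) ^ 2 : ℝ) ≤ 512 * (zg q s : ℝ) ^ 2 := by
      rw [hK]
      nlinarith
    have h2 : δ ^ 2 * zT q s / (512 * (zg q s : ℝ) ^ 2) ≤
        δ ^ 2 * zT q s / (8 * (3 * K + 2) ^ 2) := by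
      apply div_le_div_of_nonneg_left (by positivity) _ h1
      rw [hK]
      positivity
    refine le_trans (le_of_eq ?_) h2
    rw [hδ, zT_cast, zZ_cast]
    field_simp
    norm_num
  have e2 : (2 : ℝ) ^ zu q s ≤ Real.exp ((zZ q s : ℝ) ^ 2) := by
    rw [← zu_cast, ← mul_one ((zu q s : ℝ)), Real.exp_nat_mul]
    refine pow_le_pow_left₀ (by norm_num) ?_ _
    linarith [Real.add_one_le_exp (1 : ℝ)]
  have e3 : (2 : ℝ) ^ zu q s * Real.exp (-(δ ^ 2 * zT q s / (8 * (3 * K + 2) ^ 2))) ≤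
      24 / (zZ q s : ℝ) ^ 4 := by
    refine (mul_le_mul_of_nonneg_right e2 (Real.exp_pos _).le).trans ?_
    rw [← Real.exp_add]
    refine (Real.exp_le_exp.2 ?_).trans (exp_neg_le hZ0)
    nlinarith
  have e4 : 2 ^ zu q s * (((zT q s : ℝ) + 2) *
      (3 * Real.exp (-(δ ^ 2 * zT q s / (8 * (3 * K + 2) ^ 2))))) =
      3 * ((zT q s : ℝ) + 2) * ((2 : ℝ) ^ zu q s *
        Real.exp (-(δ ^ 2 * zT q s / (8 * (3 * K + 2) ^ 2)))) := by ring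
  rw [e4]
  refine (mul_le_mul_of_nonneg_left e3 (by positivity)).trans ?_
  rw [zT_cast]
  have y3 : 3 * (2 * (zZ q s : ℝ) ^ 3 + 2) * (24 / (zZ q s : ℝ) ^ 4) =
      (144 * (zZ q s : ℝ) ^ 3 + 144) / (zZ q s : ℝ) ^ 4 := by
    field_simp
    ring
  rw [y3, div_le_iff₀ (by positivity)]
  have y4 : (1 : ℝ) ≤ (zZ q s : ℝ) ^ 3 := one_le_pow₀ (by linarith)
  have y5 : (zZ q s : ℝ) ^ 4 = (zZ q s : ℝ) ^ 3 * zZ q s := by ring
  rw [y5]
  nlinarith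

theorem gap_yes (hq : 0 < q) (hs : 0 < s) {δ K ρ : ℝ} (hδ : δ = 1 / (16 * zg q s))
    (hK : K = 2 * zg q s) : ρ + 3 * δ + 5 * K * δ ^ 2 ≤ ρ + 1 / (2 * zg q s) := by
  have hg := g_ge hq hs
  have hg0 : (0 : ℝ) < zg q s := by linarith
  have h1 : 3 * δ + 5 * K * δ ^ 2 = 29 / 128 * (1 / (zg q s : ℝ)) := by
    rw [hδ, hK]
    field_simp
    norm_num
  have h2 : (1 : ℝ) / (2 * zg q s) = 1 / 2 * (1 / (zg q s : ℝ)) := by
    field_simp
  have h3 : (0 : ℝ) < 1 / (zg q s : ℝ) := by positivity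
  rw [h2]
  linarith

theorem gap_no (hq : 0 < q) (hs : 0 < s) {δ K ρ : ℝ} (hδ : δ = 1 / (16 * zg q s))
    (hK : K = 2 * zg q s) {n : ℕ} (hn : 8 * zg q s ^ 2 < n) :
    ρ + 1 / (2 * zg q s) < ρ + 1 / zg q s - 1 / (2 * K) - K / (4 * n) - 3 * δ := by
  have hg := g_ge hq hs
  have hg0 : (0 : ℝ) < zg q s := by linarith
  have hn' : (8 : ℝ) * (zg q s : ℝ) ^ 2 < n := by exact_mod_cast hn
  have hn0 : (0 : ℝ) < n := lt_of_le_of_lt (by positivity) hn'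
  have h1 : ρ + 1 / (zg q s : ℝ) - 1 / (2 * K) - K / (4 * n) - 3 * δ -
      (ρ + 1 / (2 * zg q s)) = (n - 8 * (zg q s : ℝ) ^ 2) / (16 * zg q s * n) := by
    rw [hδ, hK]
    field_simp
    ring
  have h2 : 0 < (n - 8 * (zg q s : ℝ) ^ 2) / (16 * zg q s * n) :=
    div_pos (by linarith) (by positivity)
  linarith

end

end Pool.Agent.Y645.BU
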