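import Mathlib

/-!
# A convex relaxation and its certificates
-/

set_option autoImplicit false

namespace Pool.Agent.Y645.BU

open Finset

variable {m : ℕ}

/-- Averages. -/
noncomputable def av (f : Fin m → ℝ) : ℝ := (∑ i, f i) / m

theorem av_add (f g : Fin m → ℝ) : av (fun i => f i + g i) = av f + av g := by
  unfold av
  rw [Finset.sum_add_distrib, add_div]

theorem av_sub (f g : Fin m → ℝ) : av (fun i => f i - g i) = av f - av g := by
  unfold av
  rw [Finset.sum_sub_distrib, sub_div]

theorem av_mul_left (c : ℝ) (f : Fin m → ℝ) : av (fun i => c * f i) = c * av f := by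
  unfold av
  rw [← Finset.mul_sum, mul_div_assoc]

theorem av_mul_right (c : ℝ) (f : Fin m → ℝ) : av (fun i => f i * c) = av f * c := by
  unfold av
  rw [← Finset.sum_mul]
  ring

theorem av_const (hm : 0 < m) (c : ℝ) : av (fun _ : Fin m => c) = c := by
  unfold av
  have : (m : ℝ) ≠ 0 := by exact_mod_cast hm.ne'
  simp only [sum_const, card_univ, Fintype.card_fin, nsmul_eq_mul]
  field_simp

theorem av_comm {n : ℕ} (f : Fin m → Fin n → ℝ) :
    av (fun i => av (f i)) = av (fun j => av fun i => f i j) := by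
  unfold av
  rw [← Finset.sum_div, ← Finset.sum_div, Finset.sum_comm]
  ring

theorem av_mono {f g : Fin m → ℝ} (h : ∀ i, f i ≤ g i) : av f ≤ av g :=
  div_le_div_of_nonneg_right (Finset.sum_le_sum fun i _ => h i) (Nat.cast_nonneg _)

theorem av_nonneg {f : Fin m → ℝ} (h : ∀ i, 0 ≤ f i) : 0 ≤ av f :=
  div_nonneg (Finset.sum_nonneg fun i _ => h i) (Nat.cast_nonneg _)

theorem av_le {f : Fin m → ℝ} {B : ℝ} (hB : 0 ≤ B) (h : ∀ i, f i ≤ B) : av f ≤ B := by
  rcases Nat.eq_zero_or_pos m with hm | hm
  · subst hm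
    simpa [av] using hB
  · exact (av_mono h).trans (av_const hm B).le

theorem av_abs_le {f : Fin m → ℝ} {B : ℝ} (hB : 0 ≤ B) (h : ∀ i, |f i| ≤ B) : |av f| ≤ B := by
  rw [abs_le]
  constructor
  · have h1 : av (fun i => -f i) ≤ B := av_le hB fun i => (neg_le_abs _).trans (h i)
    have h2 : av (fun i => -f i) = -av f := by
      have := av_mul_left (-1) f
      simpa using this
    linarith
  · exact av_le hB fun i => (le_abs_self _).trans (h i)

/-- The relaxed objective: the linearised cut, with penalties for the deviations from the guessed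
densities and for the imbalance. -/
noncomputable def Phi (K : ℝ) (w : Fin m → Fin m → ℝ) (a x : Fin m → ℝ) : ℝ :=
  av (fun i => x i * (av (w i) - a i)) +
    K * av (fun i => (a i - av fun j => w i j * x j) ^ 2) + K * (av x - 1 / 2) ^ 2

/-- The coefficients of the linear minorant. -/
noncomputable def cf (K : ℝ) (w : Fin m → Fin m → ℝ) (a r : Fin m → ℝ) (m₀ : ℝ) (j : Fin m) : ℝ :=
  av (w j) - a j - 2 * K * av (fun i => r i * w i j) + 2 * K * m₀

/-- The constant of the linear minorant. -/
noncomputable def c0 (K : ℝ) (a r : Fin m → ℝ) (m₀ : ℝ) : ℝ :=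
  K * av (fun i => 2 * r i * a i - r i ^ 2) - K * m₀ - K * m₀ ^ 2

/-- Completing the squares. -/
theorem Phi_eq (K : ℝ) (w : Fin m → Fin m → ℝ) (a x r : Fin m → ℝ) (m₀ : ℝ) :
    Phi K w a x = c0 K a r m₀ + av (fun j => x j * cf K w a r m₀ j) +
      K * av (fun i => (a i - av (fun j => w i j * x j) - r i) ^ 2) +
      K * (av x - 1 / 2 - m₀) ^ 2 := by
  have h1 : av (fun i => (a i - av (fun j => w i j * x j) - r i) ^ 2) =
      av (fun i => (a i - av fun j => w i j * x j) ^ 2) - av (fun i => 2 * r i * a i - r i ^ 2) +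
        2 * av (fun i => r i * av fun j => w i j * x j) := by
    rw [← av_mul_left, ← av_sub, ← av_add]
    congr 1
    funext i
    ring
  have h2 : av (fun i => r i * av fun j => w i j * x j) =
      av (fun j => x j * av fun i => r i * w i j) := by
    have e1 : (fun i => r i * av fun j => w i j * x j) =
        fun i => av fun j => r i * (w i j * x j) := by
      funext i
      rw [av_mul_left]
    have e2 : (fun j => x j * av fun i => r i * w i j) =
        fun j => av fun i => r i * (w i j * x j) := by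
      funext j
      rw [← av_mul_left]
      congr 1
      funext i
      ring
    rw [e1, e2, av_comm]
  have h3 : av (fun j => x j * cf K w a r m₀ j) = av (fun i => x i * (av (w i) - a i)) -
      2 * K * av (fun j => x j * av fun i => r i * w i j) + 2 * K * m₀ * av x := by
    rw [← av_mul_left, ← av_mul_left, ← av_sub, ← av_add]
    congr 1
    funext j
    unfold cf
    ring
  unfold Phi c0
  rw [h1, h2, h3]
  ring

theorem Phi_ge {K : ℝ} (hK : 0 ≤ K) (w : Fin m → Fin m → ℝ) (a x r : Fin m → ℝ) (m₀ : ℝ) :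
    c0 K a r m₀ + av (fun j => x j * cf K w a r m₀ j) ≤ Phi K w a x := by
  rw [Phi_eq K w a x r m₀]
  have h1 : 0 ≤ av (fun i => (a i - av (fun j => w i j * x j) - r i) ^ 2) :=
    av_nonneg fun i => sq_nonneg _
  have h2 := mul_nonneg hK h1
  have h3 := mul_nonneg hK (sq_nonneg (av x - 1 / 2 - m₀))
  linarith

/-- For vectors in the cube the minorant is at least the sum of the negative coefficients. -/
theorem Phi_ge_min {K : ℝ} (hK : 0 ≤ K) (w : Fin m → Fin m → ℝ) (a x r : Fin m → ℝ) (m₀ : ℝ)
    (hx : ∀ i, 0 ≤ x i ∧ x i ≤ 1) :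
    c0 K a r m₀ + av (fun j => min 0 (cf K w a r m₀ j)) ≤ Phi K w a x := by
  refine le_trans ?_ (Phi_ge hK w a x r m₀)
  refine add_le_add le_rfl (av_mono fun j => ?_)
  obtain ⟨h0, h1⟩ := hx j
  rcases le_total 0 (cf K w a r m₀ j) with h | h
  · rw [min_eq_left h]
    positivity
  · rw [min_eq_right h]
    nlinarith

/-- The cube. -/
def box (m : ℕ) : Set (Fin m → ℝ) := {x | ∀ i, 0 ≤ x i ∧ x i ≤ 1}

theorem exists_min (K : ℝ) (w : Fin m → Fin m → ℝ) (a : Fin m → ℝ) :
    ∃ x ∈ box m, ∀ y ∈ box m, Phi K w a x ≤ Phi K w a y := by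
  have h1 : box m = Set.Icc (0 : Fin m → ℝ) 1 := by
    ext x
    unfold box
    constructor
    · intro h
      exact ⟨fun i => (h i).1, fun i => (h i).2⟩
    · intro h i
      exact ⟨h.1 i, h.2 i⟩
  have h2 : IsCompact (box m) := by
    rw [h1]
    exact isCompact_Icc
  have h3 : Continuous (Phi K w a) := by
    unfold Phi av
    fun_prop
  obtain ⟨x, hx, hmin⟩ := h2.exists_isMinOn ⟨fun _ => 0, fun _ => by norm_num⟩ h3.continuousOn
  exact ⟨x, hx, fun y hy => hmin hy⟩

/-- First-order optimality. -/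
theorem foc {K : ℝ} (hK : 0 ≤ K) {w : Fin m → Fin m → ℝ} {a x : Fin m → ℝ} (hx : x ∈ box m)
    (hmin : ∀ y ∈ box m, Phi K w a x ≤ Phi K w a y) {y : Fin m → ℝ} (hy : y ∈ box m) :
    av (fun j => x j * cf K w a (fun i => a i - av fun j => w i j * x j) (av x - 1 / 2) j) ≤
      av (fun j => y j * cf K w a (fun i => a i - av fun j => w i j * x j) (av x - 1 / 2) j) := by
  set r : Fin m → ℝ := fun i => a i - av fun j => w i j * x j with hr
  set m₀ := av x - 1 / 2 with hm₀
  by_contra hcon
  rw [not_le] at hcon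
  set β := av (fun j => x j * cf K w a r m₀ j) - av (fun j => y j * cf K w a r m₀ j) with hβ
  have hβ0 : 0 < β := by rw [hβ]; linarith
  set S := K * av (fun i => (av fun j => w i j * (y j - x j)) ^ 2) +
    K * (av fun j => y j - x j) ^ 2 with hS
  have hS0 : 0 ≤ S := add_nonneg (mul_nonneg hK (av_nonneg fun i => sq_nonneg _))
    (mul_nonneg hK (sq_nonneg _))
  have line : ∀ t : ℝ, Phi K w a (fun j => x j + t * (y j - x j)) =
      Phi K w a x - t * β + t ^ 2 * S := by
    intro t
    have e1 : ∀ i, (av fun j => w i j * (x j + t * (y j - x j))) =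
        (av fun j => w i j * x j) + t * av fun j => w i j * (y j - x j) := by
      intro i
      rw [← av_mul_left, ← av_add]
      congr 1
      funext j
      ring
    have e2 : (av fun j => x j + t * (y j - x j)) = av x + t * av fun j => y j - x j := by
      rw [← av_mul_left, ← av_add]
    have e3 : av (fun j => (x j + t * (y j - x j)) * cf K w a r m₀ j) =
        av (fun j => x j * cf K w a r m₀ j) - t * β := by
      rw [hβ, ← av_sub, ← av_mul_left, ← av_sub]
      congr 1
      funext j
      ring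
    rw [Phi_eq K w a _ r m₀, Phi_eq K w a x r m₀, e2, e3]
    have e4 : (fun i => (a i - (av fun j => w i j * (x j + t * (y j - x j))) - r i) ^ 2) =
        fun i => t ^ 2 * (av fun j => w i j * (y j - x j)) ^ 2 := by
      funext i
      rw [e1 i, hr]
      ring
    have e5 : (fun i => (a i - (av fun j => w i j * x j) - r i) ^ 2) = fun _ => (0 : ℝ) := by
      funext i
      rw [hr]
      ring
    have e6 : av (fun _ : Fin m => (0 : ℝ)) = 0 := by simp [av]
    rw [e4, e5, e6, av_mul_left, hS, hm₀]
    ring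
  set t := β / (β + S + 1) with ht
  have hden : 0 < β + S + 1 := by linarith
  have ht0 : 0 < t := div_pos hβ0 hden
  have ht1 : t ≤ 1 := by
    rw [ht, div_le_one hden]
    linarith
  have htS : t * S < β := by
    rw [ht, div_mul_eq_mul_div, div_lt_iff₀ hden]
    nlinarith
  have hmem : (fun j => x j + t * (y j - x j)) ∈ box m := by
    intro j
    obtain ⟨a1, a2⟩ := hx j
    obtain ⟨b1, b2⟩ := hy j
    have e : x j + t * (y j - x j) = (1 - t) * x j + t * y j := by ring
    dsimp only
    rw [e]
    constructor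
    · have := mul_nonneg (sub_nonneg.2 ht1) a1
      have := mul_nonneg ht0.le b1
      linarith
    · have h1 := mul_le_mul_of_nonneg_left a2 (sub_nonneg.2 ht1)
      have h2 := mul_le_mul_of_nonneg_left b2 ht0.le
      linarith
  have h1 := hmin _ hmem
  rw [line t] at h1
  nlinarith

/-- **The certificate.** -/
theorem cert {K : ℝ} (hK : 0 ≤ K) {w : Fin m → Fin m → ℝ} {a : Fin m → ℝ} {θ : ℝ}
    (hw : ∀ i j, 0 ≤ w i j ∧ w i j ≤ 1) (ha : ∀ i, 0 ≤ a i ∧ a i ≤ 1)
    (h : ∀ x, (∀ i, 0 ≤ x i ∧ x i ≤ 1) → θ ≤ Phi K w a x) :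
    ∃ (r : Fin m → ℝ) (m₀ : ℝ), (∀ i, |r i| ≤ 1) ∧ |m₀| ≤ 1 / 2 ∧
      θ ≤ c0 K a r m₀ + av (fun j => min 0 (cf K w a r m₀ j)) := by
  obtain ⟨x, hx, hmin⟩ := exists_min K w a
  have hW : ∀ i, 0 ≤ (av fun j => w i j * x j) ∧ (av fun j => w i j * x j) ≤ 1 := by
    intro i
    constructor
    · exact av_nonneg fun j => mul_nonneg (hw i j).1 (hx j).1
    · exact av_le zero_le_one fun j => mul_le_one₀ (hw i j).2 (hx j).1 (hx j).2
  have hav : 0 ≤ av x ∧ av x ≤ 1 :=
    ⟨av_nonneg fun j => (hx j).1, av_le zero_le_one fun j => (hx j).2⟩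
  refine ⟨fun i => a i - av fun j => w i j * x j, av x - 1 / 2, fun i => ?_, ?_, ?_⟩
  · rw [abs_le]
    have h1 := hW i
    have h2 := ha i
    constructor <;> linarith
  · rw [abs_le]
    constructor <;> linarith
  · set r : Fin m → ℝ := fun i => a i - av fun j => w i j * x j with hr
    set m₀ := av x - 1 / 2 with hm₀
    have hy : (fun j => if cf K w a r m₀ j < 0 then (1 : ℝ) else 0) ∈ box m := by
      intro j
      dsimp only
      split_ifs <;> norm_num
    have h1 := foc hK hx hmin hy
    rw [← hr, ← hm₀] at h1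
    have h2 : av (fun j => (if cf K w a r m₀ j < 0 then (1 : ℝ) else 0) * cf K w a r m₀ j) =
        av (fun j => min 0 (cf K w a r m₀ j)) := by
      congr 1
      funext j
      split_ifs with hj
      · rw [one_mul, min_eq_right hj.le]
      · rw [zero_mul, min_eq_left (not_lt.1 hj)]
    rw [h2] at h1
    have h3 := h x hx
    rw [Phi_eq K w a x r m₀] at h3
    have e5 : (fun i => (a i - (av fun j => w i j * x j) - r i) ^ 2) = fun _ => (0 : ℝ) := by
      funext i
      rw [hr]
      ring
    have e6 : av (fun _ : Fin m => (0 : ℝ)) = 0 := by simp [av]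
    have e7 : av x - 1 / 2 - m₀ = 0 := by rw [hm₀]; ring
    rw [e5, e6, e7] at h3
    linarith

end Pool.Agent.Y645.BU
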