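import Pool.Agent.Y645.BU.Wrong
import Pool.Agent.Y645.BU.DefsAll

/-!
# The error of the algorithm on perturbed graphs
-/

set_option autoImplicit false

namespace Pool.Agent.Y645.BU

open Finset Pool.Agent.NPC Pool.Agent.Y645.BT

variable {n : ℕ}

/-- Base graphs with the property. -/
theorem err_yes (A : Alg) {ρ σ w : ℝ} {e s : ℕ} (h0 : 0 < σ) (h1 : σ < 1) {G₀ : Gr n}
    (hG : Bisection ρ G₀) (hw : ∀ G : Gr n, Bisection ρ G → A.wrong ρ e s G ≤ w) :
    A.errAt ρ e s σ G₀ ≤ w := by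
  classical
  unfold Alg.errAt
  have hden : 0 < ∑ G ∈ univ.filter (fun G : Gr n => Bisection ρ G ↔ Bisection ρ G₀),
      wt σ G₀ G :=
    Finset.sum_pos (fun G _ => wt_pos h0 h1 _ _) ⟨G₀, by simp⟩
  rw [div_le_iff₀ hden, Finset.mul_sum]
  refine Finset.sum_le_sum fun G hG' => ?_
  rw [mem_filter] at hG'
  have h2 := hw G (hG'.2.2 hG)
  have h3 := wt_nonneg h0.le h1.le G₀ G
  nlinarith

theorem wrong_le_one (A : Alg) (ρ : ℝ) (e s : ℕ) (G : Gr n) : A.wrong ρ e s G ≤ 1 := by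
  rw [wrong_eq]
  exact pb_le_one _

/-- Base graphs without the property. -/
theorem err_no (A : Alg) {ρ ρ' σ w τ : ℝ} {e s : ℕ} (h0 : 0 < σ) (h1 : σ < 1) (hρ : ρ ≤ ρ')
    (hw0 : 0 ≤ w) (hτ : τ < 1) {G₀ : Gr n} (hG : ¬ Bisection ρ G₀)
    (hm : mass σ G₀ (fun G => Bisection ρ' G) ≤ τ)
    (hw : ∀ G : Gr n, ¬ Bisection ρ' G → A.wrong ρ e s G ≤ w) :
    A.errAt ρ e s σ G₀ ≤ w + τ / (1 - τ) := by
  classical
  have hmono : ∀ G : Gr n, Bisection ρ G → Bisection ρ' G := by
    rintro G ⟨S, hS, hc⟩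
    exact ⟨S, hS, hc.trans (mul_le_mul_of_nonneg_right hρ (by positivity))⟩
  unfold Alg.errAt
  have hden : 0 < ∑ G ∈ univ.filter (fun G : Gr n => Bisection ρ G ↔ Bisection ρ G₀),
      wt σ G₀ G :=
    Finset.sum_pos (fun G _ => wt_pos h0 h1 _ _) ⟨G₀, by simp⟩
  set D := ∑ G ∈ univ.filter (fun G : Gr n => Bisection ρ G ↔ Bisection ρ G₀), wt σ G₀ G with hD
  have hτ0 : 0 ≤ τ := (mass_nonneg h0.le h1.le G₀ _).trans hm
  have hm' : mass σ G₀ (fun G => Bisection ρ' G) =
      ∑ G : Gr n, wt σ G₀ G * (if Bisection ρ' G then 1 else 0) := rfl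
  have hnum : ∑ G ∈ univ.filter (fun G : Gr n => Bisection ρ G ↔ Bisection ρ G₀),
      wt σ G₀ G * A.wrong ρ e s G ≤ w * D + τ := by
    have h2 : ∀ G ∈ univ.filter (fun G : Gr n => Bisection ρ G ↔ Bisection ρ G₀),
        wt σ G₀ G * A.wrong ρ e s G ≤ w * wt σ G₀ G +
          wt σ G₀ G * (if Bisection ρ' G then 1 else 0) := by
      intro G _
      have h3 := wt_nonneg h0.le h1.le G₀ G
      split_ifs with hb
      · have h4 := wrong_le_one A ρ e s G
        nlinarith [mul_nonneg hw0 h3]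
      · have h4 := hw G hb
        nlinarith
    refine (Finset.sum_le_sum h2).trans ?_
    rw [Finset.sum_add_distrib, ← Finset.mul_sum]
    refine add_le_add le_rfl (le_trans ?_ hm)
    rw [hm']
    exact Finset.sum_le_univ_sum_of_nonneg fun G =>
      mul_nonneg (wt_nonneg h0.le h1.le _ _) (by split_ifs <;> norm_num)
  have hD1 : 1 - τ ≤ D := by
    have h3 : 1 - τ ≤ 1 - mass σ G₀ (fun G => Bisection ρ' G) := by linarith
    refine h3.trans ?_
    have h5 : 1 - mass σ G₀ (fun G => Bisection ρ' G) =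
        ∑ G : Gr n, (wt σ G₀ G - wt σ G₀ G * (if Bisection ρ' G then 1 else 0)) := by
      rw [Finset.sum_sub_distrib, wt_sum, hm']
    rw [h5, hD, Finset.sum_filter]
    refine Finset.sum_le_sum fun G _ => ?_
    have h4 := wt_nonneg h0.le h1.le G₀ G
    by_cases hb : Bisection ρ' G
    · rw [if_pos hb]
      split_ifs
      · linarith
      · linarith
    · rw [if_neg hb, if_pos (by
        constructor
        · intro h; exact absurd (hmono G h) hb
        · intro h; exact absurd h hG)]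
      linarith
  rw [div_le_iff₀ hden]
  refine hnum.trans ?_
  have h5 : τ ≤ τ / (1 - τ) * D := by
    rw [div_mul_eq_mul_div, le_div_iff₀ (by linarith)]
    exact mul_le_mul_of_nonneg_left hD1 hτ0
  nlinarith

/-- The concentration of all bisections. -/
theorem mass_small {ρ σ γ c : ℝ} (h0 : 0 < σ) (h1 : σ ≤ 1 / 2) (hc0 : 0 ≤ c) (hc : c ≤ 1 / 2)
    (hgap : γ + c ≤ σ * (1 / 4 - 2 * ρ)) {G₀ : Gr n} (hG : ¬ Bisection ρ G₀) :
    mass σ G₀ (fun G => Bisection (ρ + γ) G) ≤ 2 ^ n * Real.exp (-(c ^ 2 * (n : ℝ) ^ 2)) := by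
  refine union_tail h0.le (by linarith) G₀ hc0 hc fun S hS => ?_
  have h2 : ρ * (n : ℝ) ^ 2 ≤ cut G₀ S := by
    by_contra hcon
    exact hG ⟨S, hS, (not_le.1 hcon).le⟩
  have h3 : (1 - 2 * σ) * (ρ * (n : ℝ) ^ 2) ≤ (1 - 2 * σ) * cut G₀ S :=
    mul_le_mul_of_nonneg_left h2 (by linarith)
  have h4 : (γ + c) * (n : ℝ) ^ 2 ≤ σ * (1 / 4 - 2 * ρ) * (n : ℝ) ^ 2 :=
    mul_le_mul_of_nonneg_right hgap (by positivity)
  nlinarith

/-! ### The bound for the algorithm -/

theorem exists_pow_bound (P : Polynomial ℕ) : ∃ k : ℕ, ∀ m : ℕ, 2 ≤ m → P.eval m < m ^ k := by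
  induction P using Polynomial.induction_on' with
  | add P Q hP hQ =>
    obtain ⟨a, ha⟩ := hP
    obtain ⟨b, hb⟩ := hQ
    refine ⟨max a b + 1, fun m hm => ?_⟩
    rw [Polynomial.eval_add, pow_succ]
    have h1 := (ha m hm).trans_le (Nat.pow_le_pow_right (by omega) (le_max_left a b))
    have h2 := (hb m hm).trans_le (Nat.pow_le_pow_right (by omega) (le_max_right a b))
    have h3 : m ^ max a b * 2 ≤ m ^ max a b * m := Nat.mul_le_mul_left _ hm
    omega
  | monomial j c =>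
    refine ⟨c + j, fun m hm => ?_⟩
    rw [Polynomial.eval_monomial, pow_add]
    have h1 : c < m ^ c := c.lt_two_pow_self.trans_le (Nat.pow_le_pow_left hm c)
    exact Nat.mul_lt_mul_of_pos_right h1 (by positivity)

/-- The number of samples as a polynomial. -/
noncomputable def PN (q : ℕ) : Polynomial ℕ :=
  (Polynomial.C 131072 * (Polynomial.C (8 * q) * Polynomial.X) ^ 4) ^ 2 +
    Polynomial.C 2 * (Polynomial.C 131072 * (Polynomial.C (8 * q) * Polynomial.X) ^ 4) *
      (Polynomial.C 131072 * (Polynomial.C (8 * q) * Polynomial.X) ^ 4) ^ 2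

theorem PN_eval (q s : ℕ) : (PN q).eval s = zN q s := by
  unfold PN zN zT zu zw zZ zg
  simp

/-- The bound for the random bits. -/
noncomputable def PB (q : ℕ) (ρ : Polynomial ℕ) : Polynomial ℕ :=
  PN q * PN q + Polynomial.C 3 * ρ.comp (Polynomial.C 2 * Polynomial.X +
    Polynomial.C 4 * (PN q * PN q) + Polynomial.C 3)

theorem exists_k (q : ℕ) (ρ : Polynomial ℕ) : ∃ k : ℕ, ∀ e s : ℕ, 0 < e → 2 ≤ s →
    zN q s * zN q s < (e + s) ^ k ∧ ∀ ans : List Bool, ans.length = zN q s * zN q s →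
      3 * rl ρ (List.replicate s (), ans) ≤ (e + s) ^ k := by
  obtain ⟨k, hk⟩ := exists_pow_bound (PB q ρ)
  refine ⟨k, fun e s he hs => ?_⟩
  have h1 := (eval_mono (PB q ρ) (Nat.le_add_left s e)).trans_lt (hk (e + s) (by omega))
  unfold PB at h1
  rw [Polynomial.eval_add, Polynomial.eval_mul, Polynomial.eval_mul, Polynomial.eval_comp,
    Polynomial.eval_C] at h1
  simp only [Polynomial.eval_add, Polynomial.eval_mul, Polynomial.eval_C, Polynomial.eval_X,
    PN_eval] at h1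
  refine ⟨by omega, fun ans hans => ?_⟩
  have h2 : rl ρ (List.replicate s (), ans) ≤
      ρ.eval (2 * s + 4 * (zN q s * zN q s) + 3) := by
    unfold rl
    apply eval_mono
    rw [bits_length, sz_pair]
    have h3 := sz_listBool_le ans
    have h4 := sz_le_length_mul (List.replicate s ()) 1 (fun _ _ => le_rfl)
    rw [List.length_replicate] at h4
    rw [hans] at h3
    omega
  omega

/-- **If `NP ⊆ BPP` then there is a smoothed tester.** -/
theorem tester_of_bpp {p q : ℕ} (hq : 8 * p < q)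
    (h : ∀ L : Set (List Bool), InNP L → InBPP L) : ∃ A : Alg, A.TestsAll ((p : ℝ) / q) := by
  obtain ⟨V, ρ, hV, hVr⟩ := h _ (acc_np p q)
  obtain ⟨k, hk⟩ := exists_k q ρ
  refine ⟨tester q hV ρ k, fun ε σ hε hσ0 hσ2 hεσ δ hδ => ?_⟩
  have hq0 : 0 < q := by omega
  have hq' : (0 : ℝ) < q := by exact_mod_cast hq0
  set e := ⌈1 / ε⌉₊ with he
  set s := ⌈1 / σ⌉₊ with hs
  have he0 : 0 < e := Nat.ceil_pos.2 (by positivity)
  have hs2 : 2 ≤ s := by
    have h1 : (2 : ℝ) ≤ 1 / σ := by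
      rw [le_div_iff₀ hσ0]
      linarith
    exact_mod_cast h1.trans (Nat.le_ceil _)
  have hs0 : 0 < s := by omega
  have hs' : (0 : ℝ) < s := by exact_mod_cast hs0
  have hσs : 1 / (s : ℝ) ≤ σ := by
    have h1 := Nat.le_ceil (1 / σ)
    rw [← hs] at h1
    rw [div_le_iff₀ hs']
    rw [div_le_iff₀ hσ0] at h1
    linarith
  obtain ⟨hk1, hk2⟩ := hk e s he0 hs2
  have hbd : zN q s ≤ (tester q hV ρ k).bd e s := by
    have h1 : zN q s ≤ zN q s * zN q s := Nat.le_mul_self _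
    exact h1.trans hk1.le
  -- the gap
  have hρ : (1 : ℝ) / (4 * q) ≤ 1 / 4 - 2 * ((p : ℝ) / q) := by
    have h1 : (8 * p + 1 : ℝ) ≤ q := by exact_mod_cast hq
    have h2 : (1 : ℝ) / 4 - 2 * ((p : ℝ) / q) = (q - 8 * p) / (4 * q) := by
      field_simp
      ring
    rw [h2]
    apply div_le_div_of_nonneg_right _ (by positivity)
    linarith
  set c : ℝ := σ / (8 * q) with hc
  have hc0 : 0 < c := by positivity
  have hc2 : c ≤ 1 / 2 := by
    rw [hc, div_le_iff₀ (by positivity)]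
    have : (1 : ℝ) ≤ q := by exact_mod_cast hq0
    linarith
  have hγ : (1 : ℝ) / zg q s ≤ c := by
    have h1 : (zg q s : ℝ) = 8 * q * s := by unfold zg; push_cast; ring
    have h2 : (1 : ℝ) / (8 * q * s) = 1 / s / (8 * q) := by
      field_simp
    rw [h1, h2, hc]
    exact div_le_div_of_nonneg_right hσs (by positivity)
  have hgap : (1 : ℝ) / zg q s + c ≤ σ * (1 / 4 - 2 * ((p : ℝ) / q)) := by
    have h1 : σ * (1 / (4 * q)) ≤ σ * (1 / 4 - 2 * ((p : ℝ) / q)) :=
      mul_le_mul_of_nonneg_left hρ hσ0.le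
    have h2 : σ * (1 / (4 * q)) = c + c := by
      rw [hc]
      field_simp
      norm_num
    linarith
  obtain ⟨m, hm⟩ := exists_nat_gt (2 / c ^ 2)
  refine ⟨m + 8 * zg q s ^ 2 + 8, fun n hn heven G₀ => ?_⟩
  obtain ⟨hh, hnh⟩ := heven
  have hn0 : 0 < n := by omega
  have hng : 8 * zg q s ^ 2 < n := by omega
  by_cases hG : Bisection ((p : ℝ) / q) G₀
  · have h1 : (tester q hV ρ k).errAt ((p : ℝ) / q) e s σ G₀ ≤ 1 / 100 + 7 / 27 := by
      refine err_yes _ hσ0 (by linarith) hG fun G hGG => ?_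
      refine wrong_le hV hVr hk1 hk2 (by norm_num) ?_
      refine (pb_mono fun v hv => ?_).trans (acc_yes hq0 hs0 hn0 hbd hGG)
      intro hacc
      exact hv ⟨fun _ => hGG, fun _ => hacc⟩
    linarith
  · have hmass : mass σ G₀ (fun G => Bisection ((p : ℝ) / q + 1 / zg q s) G) ≤ 1 / 100 := by
      refine (mass_small hσ0 hσ2 hc0.le hc2 hgap hG).trans ?_
      have hn' : (m : ℝ) ≤ n := by exact_mod_cast (by omega : m ≤ n)
      have h2 : 2 ≤ c ^ 2 * n := by
        rw [div_lt_iff₀ (by positivity)] at hm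
        nlinarith [sq_nonneg c]
      refine (tail_small h2).trans ?_
      have h3 : ((1 : ℝ) / 2) ^ n ≤ (1 / 2) ^ 8 :=
        pow_le_pow_of_le_one (by norm_num) (by norm_num) (by omega)
      refine h3.trans (by norm_num)
    have h1 : (tester q hV ρ k).errAt ((p : ℝ) / q) e s σ G₀ ≤
        (1 / 100 + 7 / 27) + (1 / 100) / (1 - 1 / 100) := by
      refine err_no _ hσ0 (by linarith) (by
        have : (0 : ℝ) ≤ 1 / zg q s := by positivity
        linarith) (by norm_num) (by norm_num) hG hmass fun G hGG => ?_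
      have hGρ : ¬ Bisection ((p : ℝ) / q) G := by
        rintro ⟨S, hS, hcut⟩
        refine hGG ⟨S, hS, hcut.trans (mul_le_mul_of_nonneg_right ?_ (by positivity))⟩
        have : (0 : ℝ) ≤ 1 / zg q s := by positivity
        linarith
      refine wrong_le hV hVr hk1 hk2 (by norm_num) ?_
      refine (pb_mono fun v hv => ?_).trans
        (acc_no hq0 hs0 (h := hh) (by omega) hng hbd hGG)
      by_contra hacc
      exact hv ⟨fun h => absurd h hacc, fun h => absurd h hGρ⟩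
    have h5 : (1 / 100 + 7 / 27 : ℝ) + (1 / 100) / (1 - 1 / 100) < 1 / 3 := by norm_num
    linarith

end Pool.Agent.Y645.BU
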