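import Pool.Agent.Y645.BU.Hoef

/-!
# The relaxation does not get easier on a sample
-/

set_option autoImplicit false

namespace Pool.Agent.Y645.BU

open Finset

variable {n T u : ℕ}

/-- The matrix on the sample. -/
def wS (w : Fin n → Fin n → ℝ) (v : Fin T → Fin n) (b c : Fin T) : ℝ := w (v b) (v c)

/-- **Soundness for fixed guessed densities.** -/
theorem sound (hT : 0 < T) {K δ θ : ℝ} (hK : 1 ≤ K) (hδ : 0 ≤ δ) (hδ1 : δ ≤ 1)
    {w : Fin n → Fin n → ℝ} (hw : ∀ i j, 0 ≤ w i j ∧ w i j ≤ 1) {a : Fin n → ℝ}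
    (ha : ∀ i, 0 ≤ a i ∧ a i ≤ 1)
    (h : ∀ x, (∀ i, 0 ≤ x i ∧ x i ≤ 1) → θ ≤ Phi K w a x) :
    pb (fun v : Fin T → Fin n => ∃ y : Fin T → ℝ, (∀ b, 0 ≤ y b ∧ y b ≤ 1) ∧
      Phi K (wS w v) (fun b => a (v b)) y < θ - 3 * δ) ≤
      (T + 2) * (3 * Real.exp (-(δ ^ 2 * T / (8 * (3 * K + 2) ^ 2)))) := by
  obtain ⟨r, m₀, hr, hm₀, hc⟩ := cert (by linarith) hw ha h
  set E := 3 * Real.exp (-(δ ^ 2 * T / (8 * (3 * K + 2) ^ 2))) with hE
  have hB : (0 : ℝ) < 3 * K + 2 := by linarith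
  have hδB : δ ≤ 2 * (3 * K + 2) := by linarith
  -- the kernel
  let φ : Fin n → Fin n → ℝ := fun i j => w i j - 2 * K * (r j * w j i)
  have hrw : ∀ i j, |r j * w j i| ≤ 1 := by
    intro i j
    rw [abs_mul]
    exact mul_le_one₀ (hr j) (abs_nonneg _) (by
      rw [abs_of_nonneg (hw j i).1]; exact (hw j i).2)
  have hφ : ∀ i j, |φ i j| ≤ 3 * K + 2 := by
    intro i j
    have h1 := abs_le.1 (hrw i j)
    obtain ⟨h2, h3⟩ := hw i j
    rw [abs_le]
    constructor
    · simp only [φ]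
      nlinarith [h1.2]
    · simp only [φ]
      nlinarith [h1.1]
  have hcf : ∀ i, cf K w a r m₀ i = av (φ i) - a i + 2 * K * m₀ := by
    intro i
    simp only [φ]
    rw [av_sub, av_mul_left]
    unfold cf
    ring
  have hcfb : ∀ i, |cf K w a r m₀ i| ≤ 3 * K + 2 := by
    intro i
    have h1 : 0 ≤ av (w i) := av_nonneg fun j => (hw i j).1
    have h2 : av (w i) ≤ 1 := av_le zero_le_one fun j => (hw i j).2
    have h3 := abs_le.1 (av_abs_le (m := n) zero_le_one (fun j => hrw i j))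
    have h4 := abs_le.1 hm₀
    obtain ⟨h5, h6⟩ := ha i
    unfold cf
    rw [abs_le]
    constructor
    · nlinarith [h3.2, h4.1]
    · nlinarith [h3.1, h4.2]
  have hg : ∀ i, |min 0 (cf K w a r m₀ i)| ≤ 3 * K + 2 := by
    intro i
    have h1 := abs_le.1 (hcfb i)
    rw [abs_le]
    constructor
    · exact le_min (by linarith) h1.1
    · exact (min_le_left _ _).trans (by linarith)
  have hg' : ∀ i, |K * (2 * r i * a i - r i ^ 2)| ≤ 3 * K + 2 := by
    intro i
    obtain ⟨h5, h6⟩ := ha i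
    have h1 := abs_le.1 (hr i)
    have h2 : |2 * r i * a i - r i ^ 2| ≤ 3 := by
      rw [abs_le]
      have h7 : r i ^ 2 ≤ 1 := by nlinarith [h1.1, h1.2]
      have h8 : -1 ≤ r i * a i := by nlinarith [h1.1, h1.2]
      have h9 : r i * a i ≤ 1 := by nlinarith [h1.1, h1.2]
      constructor
      · nlinarith
      · nlinarith [sq_nonneg (r i)]
    rw [abs_mul, abs_of_nonneg (by linarith : (0 : ℝ) ≤ K)]
    nlinarith
  -- the bad events
  have b1 : pb (fun v : Fin T → Fin n => ∃ b, (av fun c => φ (v b) (v c)) + δ < av (φ (v b))) ≤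
      T * E := by
    refine (pb_exists_le _ fun b => tail_down φ hB hδ hδB hφ b).trans ?_
    rw [Fintype.card_fin]
  have b2 := fun_down (T := T) (fun i => min 0 (cf K w a r m₀ i)) hT hB hδ hδB hg
  have b3 := fun_down (T := T) (fun i => K * (2 * r i * a i - r i ^ 2)) hT hB hδ hδB hg'
  have hsum : pb (fun v : Fin T → Fin n =>
      (∃ b, (av fun c => φ (v b) (v c)) + δ < av (φ (v b))) ∨
      ((av fun c => min 0 (cf K w a r m₀ (v c))) + δ < av (fun i => min 0 (cf K w a r m₀ i)) ∨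
        (av fun c => K * (2 * r (v c) * a (v c) - r (v c) ^ 2)) + δ <
          av (fun i => K * (2 * r i * a i - r i ^ 2)))) ≤ (T + 2) * E := by
    have h1 := pb_or (fun v : Fin T → Fin n =>
      ∃ b, (av fun c => φ (v b) (v c)) + δ < av (φ (v b))) (fun v =>
      ((av fun c => min 0 (cf K w a r m₀ (v c))) + δ < av (fun i => min 0 (cf K w a r m₀ i)) ∨
        (av fun c => K * (2 * r (v c) * a (v c) - r (v c) ^ 2)) + δ <
          av (fun i => K * (2 * r i * a i - r i ^ 2))))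
    have h2 := pb_or (fun v : Fin T → Fin n =>
      (av fun c => min 0 (cf K w a r m₀ (v c))) + δ < av (fun i => min 0 (cf K w a r m₀ i)))
      (fun v => (av fun c => K * (2 * r (v c) * a (v c) - r (v c) ^ 2)) + δ <
          av (fun i => K * (2 * r i * a i - r i ^ 2)))
    rw [← hE] at b2 b3
    linarith
  refine (pb_mono fun v hv => ?_).trans hsum
  by_contra hcon
  rw [not_or, not_or, not_exists] at hcon
  obtain ⟨g1, g2, g3⟩ := hcon
  obtain ⟨y, hy, hlt⟩ := hv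
  have k1 := Phi_ge_min (by linarith : (0 : ℝ) ≤ K) (wS w v) (fun b => a (v b)) y
    (fun b => r (v b)) m₀ hy
  have k2 : ∀ b, min 0 (cf K w a r m₀ (v b)) - δ ≤
      min 0 (cf K (wS w v) (fun b => a (v b)) (fun b => r (v b)) m₀ b) := by
    intro b
    have e1 : cf K (wS w v) (fun b => a (v b)) (fun b => r (v b)) m₀ b =
        (av fun c => φ (v b) (v c)) - a (v b) + 2 * K * m₀ := by
      simp only [φ]
      rw [av_sub, av_mul_left]
      unfold cf wS
      ring
    have e2 := not_lt.1 (g1 b)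
    rw [e1]
    refine le_min ?_ ?_
    · have := min_le_left 0 (cf K w a r m₀ (v b))
      linarith
    · have h3 := min_le_right 0 (cf K w a r m₀ (v b))
      rw [hcf (v b)] at h3 ⊢
      linarith
  have k3 : (av fun b => min 0 (cf K w a r m₀ (v b))) - δ ≤
      av fun b => min 0 (cf K (wS w v) (fun b => a (v b)) (fun b => r (v b)) m₀ b) := by
    have h1 := av_mono k2
    rw [av_sub, av_const hT] at h1
    exact h1
  have k4 := not_lt.1 g2
  have k5 := not_lt.1 g3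
  have k6 : c0 K (fun b => a (v b)) (fun b => r (v b)) m₀ =
      (av fun c => K * (2 * r (v c) * a (v c) - r (v c) ^ 2)) - K * m₀ - K * m₀ ^ 2 := by
    unfold c0
    rw [av_mul_left]
  have k7 : c0 K a r m₀ =
      av (fun i => K * (2 * r i * a i - r i ^ 2)) - K * m₀ - K * m₀ ^ 2 := by
    unfold c0
    rw [av_mul_left]
  linarith

/-- The densities guessed from the labels of a sample. -/
noncomputable def aU (w : Fin n → Fin n → ℝ) (z : Fin u → Fin n) (π : Fin u → ℝ) (i : Fin n) : ℝ :=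
  av fun c => w i (z c) * π c

/-- Labels from bits. -/
def lab (π : Fin u → Bool) (c : Fin u) : ℝ := if π c then 1 else 0

theorem lab_bd (π : Fin u → Bool) (c : Fin u) : 0 ≤ lab π c ∧ lab π c ≤ 1 := by
  unfold lab
  split_ifs <;> norm_num

theorem aU_bd {w : Fin n → Fin n → ℝ} (hw : ∀ i j, 0 ≤ w i j ∧ w i j ≤ 1) (z : Fin u → Fin n)
    (π : Fin u → Bool) (i : Fin n) : 0 ≤ aU w z (lab π) i ∧ aU w z (lab π) i ≤ 1 := by
  unfold aU
  constructor
  · exact av_nonneg fun c => mul_nonneg (hw _ _).1 (lab_bd π c).1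
  · exact av_le zero_le_one fun c => mul_le_one₀ (hw _ _).2 (lab_bd π c).1 (lab_bd π c).2

/-- **Soundness for all guesses at once.** -/
theorem sound_all (hT : 0 < T) {K δ θ : ℝ} (hK : 1 ≤ K) (hδ : 0 ≤ δ) (hδ1 : δ ≤ 1)
    {w : Fin n → Fin n → ℝ} (hw : ∀ i j, 0 ≤ w i j ∧ w i j ≤ 1) (z : Fin u → Fin n)
    (h : ∀ a : Fin n → ℝ, (∀ i, 0 ≤ a i ∧ a i ≤ 1) →
      ∀ x, (∀ i, 0 ≤ x i ∧ x i ≤ 1) → θ ≤ Phi K w a x) :
    pb (fun v : Fin T → Fin n => ∃ π : Fin u → Bool, ∃ y : Fin T → ℝ,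
      (∀ b, 0 ≤ y b ∧ y b ≤ 1) ∧
      Phi K (wS w v) (fun b => aU w z (lab π) (v b)) y < θ - 3 * δ) ≤
      2 ^ u * ((T + 2) * (3 * Real.exp (-(δ ^ 2 * T / (8 * (3 * K + 2) ^ 2))))) := by
  refine (pb_exists_le _ fun π => sound hT hK hδ hδ1 hw (aU_bd hw z π)
    (h _ (aU_bd hw z π))).trans ?_
  simp

end Pool.Agent.Y645.BU
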