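import Pool.Agent.Y645.BU.Hoef

/-!
# Marginals and majority votes
-/

set_option autoImplicit false

namespace Pool.Agent.Y645.BU

open Finset

section

variable {A B V : Type} [Fintype A] [Fintype B] [Fintype V] [DecidableEq A] [DecidableEq B]
  [DecidableEq V]

/-- The number of extensions of a function along an injection. -/
theorem card_fiber (e : A → B) (he : Function.Injective e) (h : A → V) :
    (univ.filter fun v : B → V => v ∘ e = h).card * Fintype.card V ^ Fintype.card A =
      Fintype.card V ^ Fintype.card B := by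
  classical
  have h2 : (univ.filter fun v : B → V => v ∘ e = h) =
      Fintype.piFinset (fun b => if hb : ∃ a, e a = b then {h hb.choose} else univ) := by
    ext v
    simp only [mem_filter, mem_univ, true_and, Fintype.mem_piFinset]
    constructor
    · intro h b
      split_ifs with hb
      · rw [Finset.mem_singleton]
        conv_lhs => rw [← hb.choose_spec]
        exact congrFun h _
      · exact mem_univ _
    · intro h
      funext a
      have h3 := h (e a)
      have hb : ∃ a', e a' = e a := ⟨a, rfl⟩
      rw [dif_pos hb, Finset.mem_singleton] at h3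
      rw [Function.comp_apply, h3, he hb.choose_spec]
  rw [h2, Fintype.card_piFinset]
  have h3 : ∀ b, (if hb : ∃ a, e a = b then {h hb.choose} else (univ : Finset V)).card =
      if ∃ a, e a = b then 1 else Fintype.card V := by
    intro b
    split_ifs with hb
    · rw [card_singleton]
    · rw [card_univ]
  rw [Finset.prod_congr rfl fun b _ => h3 b]
  have h4 : ∏ b : B, (if ∃ a, e a = b then Fintype.card V else 1) =
      Fintype.card V ^ Fintype.card A := by
    rw [Finset.prod_ite, Finset.prod_const, Finset.prod_const, one_pow, mul_one]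
    congr 1
    rw [← Finset.card_univ, ← Finset.card_image_of_injective univ he]
    congr 1
    ext b
    simp
  rw [← h4, ← Finset.prod_mul_distrib, ← Finset.card_univ (α := B), ← Finset.prod_const]
  refine Finset.prod_congr rfl fun b _ => ?_
  split_ifs <;> simp

/-- Fractions of events that depend on some coordinates. -/
theorem pb_comp (e : A → B) (he : Function.Injective e) (P : (A → V) → Prop) :
    pb (fun v : B → V => P (v ∘ e)) ≤ pb P := by
  classical
  have h1 : ((univ.filter fun v : B → V => P (v ∘ e)).card : ℝ) =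
      ∑ h ∈ univ.filter P, ((univ.filter fun v : B → V => v ∘ e = h).card : ℝ) := by
    rw [← Nat.cast_sum]
    congr 1
    rw [Finset.card_eq_sum_card_fiberwise (f := fun v : B → V => v ∘ e) (t := univ.filter P)
      (fun v hv => by
        rw [Finset.mem_coe, mem_filter] at hv ⊢
        exact ⟨mem_univ _, hv.2⟩)]
    refine Finset.sum_congr rfl fun h hh => ?_
    congr 1
    ext v
    simp only [mem_filter, mem_univ, true_and]
    constructor
    · exact fun h => h.2
    · intro h3
      refine ⟨?_, h3⟩
      rw [h3]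
      exact (mem_filter.1 hh).2
  unfold pb
  rcases Nat.eq_zero_or_pos (Fintype.card (B → V)) with h0 | h0
  · rw [h0, Nat.cast_zero, div_zero]
    positivity
  have hB : 0 < Fintype.card V ^ Fintype.card B := by rwa [Fintype.card_fun] at h0
  have hk : ∀ h : A → V, 0 < Fintype.card V ^ Fintype.card A := by
    intro h
    have := card_fiber e he h
    rcases Nat.eq_zero_or_pos (Fintype.card V ^ Fintype.card A) with h5 | h5
    · rw [h5, Nat.mul_zero] at this
      omega
    · exact h5
  by_cases hne : Nonempty (A → V)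
  · obtain ⟨h⟩ := hne
    have hA := hk h
    have hA' : (0 : ℝ) < (Fintype.card V : ℝ) ^ Fintype.card A := by exact_mod_cast hA
    have hB' : (0 : ℝ) < (Fintype.card V : ℝ) ^ Fintype.card B := by exact_mod_cast hB
    rw [h1, Fintype.card_fun, Fintype.card_fun, div_le_div_iff₀ (by exact_mod_cast hB)
      (by exact_mod_cast hA)]
    refine le_of_eq ?_
    rw [Finset.sum_mul]
    have h6 : ∀ h ∈ univ.filter P, ((univ.filter fun v : B → V => v ∘ e = h).card : ℝ) *
        ((Fintype.card V ^ Fintype.card A : ℕ) : ℝ) =
        ((Fintype.card V ^ Fintype.card B : ℕ) : ℝ) := by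
      intro h _
      exact_mod_cast card_fiber e he h
    rw [Finset.sum_congr rfl h6, Finset.sum_const, nsmul_eq_mul]
  · rw [h1]
    have h7 : univ.filter P = (∅ : Finset (A → V)) := by
      ext h
      exact absurd ⟨h⟩ hne
    rw [h7, Finset.sum_empty, zero_div]
    positivity

end

/-- Fractions are invariant under equivalences. -/
theorem pb_equiv {Ω Ω' : Type} [Fintype Ω] [Fintype Ω'] (e : Ω ≃ Ω') (P : Ω' → Prop) :
    pb (fun x => P (e x)) = pb P := by
  classical
  unfold pb
  rw [Fintype.card_congr e]
  congr 2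
  refine Finset.card_bij (fun x _ => e x) ?_ ?_ ?_
  · intro x hx
    simpa using hx
  · intro x _ y _ h
    exact e.injective h
  · intro y hy
    exact ⟨e.symm y, by simpa using hy, by simp⟩

/-- At least two of three. -/
def two3 (a b c : Prop) : Prop := (a ∧ b) ∨ (a ∧ c) ∨ (b ∧ c)

/-- **Majority of three.** -/
theorem pb_maj {X : Type} [Fintype X] [Nonempty X] (P : X → Prop) (h : 2 / 3 ≤ pb P) :
    pb (fun x : Fin 3 → X => ¬ two3 (P (x 0)) (P (x 1)) (P (x 2))) ≤ 7 / 27 := by
  classical
  set N : ℝ := (Fintype.card X : ℝ) with hN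
  have hN0 : 0 < N := by rw [hN]; exact_mod_cast Fintype.card_pos
  set f : X → ℝ := fun x => if P x then 1 else 0 with hf
  set c : ℝ := ∑ x, f x with hc
  have hpc : pb P = c / N := by
    unfold pb
    rw [hc, hf, Finset.sum_boole]
  have s3 : ∀ a b d : X → ℝ, ∑ x : Fin 3 → X, a (x 0) * b (x 1) * d (x 2) =
      (∑ x, a x) * (∑ x, b x) * ∑ x, d x := by
    intro a b d
    have h1 := Finset.prod_univ_sum (t := fun _ : Fin 3 => (univ : Finset X))
      (f := fun i x => if i = 0 then a x else if i = 1 then b x else d x)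
    rw [Fintype.piFinset_univ, Fin.prod_univ_three] at h1
    simp only [Fin.prod_univ_three] at h1
    simpa using h1.symm
  have h1 : ((univ.filter fun x : Fin 3 → X => ¬ two3 (P (x 0)) (P (x 1)) (P (x 2))).card : ℝ) =
      ∑ x : Fin 3 → X, (1 - (f (x 0) * f (x 1) * 1 + f (x 0) * 1 * f (x 2) + 1 * f (x 1) * f (x 2) -
        2 * (f (x 0) * f (x 1) * f (x 2)))) := by
    rw [← Finset.sum_boole]
    refine Finset.sum_congr rfl fun x _ => ?_
    unfold two3
    simp only [hf]
    by_cases a : P (x 0) <;> by_cases b : P (x 1) <;> by_cases d : P (x 2) <;>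
      simp [a, b, d] <;> norm_num
  have h2 : ∑ x : Fin 3 → X, (1 - (f (x 0) * f (x 1) * 1 + f (x 0) * 1 * f (x 2) +
      1 * f (x 1) * f (x 2) - 2 * (f (x 0) * f (x 1) * f (x 2)))) =
      N ^ 3 - (3 * c ^ 2 * N - 2 * c ^ 3) := by
    rw [Finset.sum_sub_distrib, Finset.sum_sub_distrib, Finset.sum_add_distrib,
      Finset.sum_add_distrib, ← Finset.mul_sum, s3 f f (fun _ => 1), s3 f (fun _ => 1) f,
      s3 (fun _ => 1) f f, s3 f f f]
    simp only [Finset.sum_const, card_univ, Fintype.card_fun, Fintype.card_fin, nsmul_eq_mul,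
      mul_one, Nat.cast_pow, ← hN, ← hc]
    ring
  have h3 : pb (fun x : Fin 3 → X => ¬ two3 (P (x 0)) (P (x 1)) (P (x 2))) =
      1 - 3 * (c / N) ^ 2 + 2 * (c / N) ^ 3 := by
    have h4 : pb (fun x : Fin 3 → X => ¬ two3 (P (x 0)) (P (x 1)) (P (x 2))) =
        (N ^ 3 - (3 * c ^ 2 * N - 2 * c ^ 3)) / N ^ 3 := by
      rw [← h2, ← h1]
      unfold pb
      rw [Fintype.card_fun, Fintype.card_fin, Nat.cast_pow, ← hN]
      congr 2
      refine Finset.card_bij (fun x _ => x) ?_ ?_ ?_
      · intro x hx
        simpa using hx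
      · intro x _ y _ h
        exact h
      · intro x hx
        exact ⟨x, by simpa using hx, rfl⟩
    rw [h4]
    field_simp
    ring
  rw [h3, ← hpc]
  have h5 := pb_le_one P
  nlinarith [mul_nonneg (sub_nonneg.2 h) (sub_nonneg.2 h5),
    mul_nonneg (mul_nonneg (sub_nonneg.2 h) (sub_nonneg.2 h)) (sub_nonneg.2 h5)]

end Pool.Agent.Y645.BU
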