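import Pool.Agent.Y645.BU.ChkPoly
import Pool.Agent.Y645.BU.Trans
import Pool.Agent.Y645.BT.Hard

/-!
# The algorithm
-/

set_option autoImplicit false

namespace Pool.Agent.Y645.BU

open Pool.Agent.NPC Pool.Agent.Y645.BT

variable {β : Type} [TEnc β]

/-- The number of random bits for a vote. -/
def rl (ρ : Polynomial ℕ) (I : List Unit × List Bool) : ℕ := ρ.eval (bits I).length

/-- The `i`-th block of random bits. -/
def chunk (R i : ℕ) (r : List Bool) : List Bool :=
  (List.range R).map fun j => r.getD (i * R + j) false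

/-- The `i`-th vote. -/
def vote (V : List Bool → List Bool) (ρ : Polynomial ℕ) (I : List Unit × List Bool)
    (r : List Bool) (i : ℕ) : Bool :=
  decide (V (pairBits (bits I) (chunk (rl ρ I) i r)) = [true])

/-- The majority vote. -/
def verd (V : List Bool → List Bool) (ρ : Polynomial ℕ) (I : List Unit × List Bool)
    (r : List Bool) : Bool :=
  (vote V ρ I r 0 && vote V ρ I r 1) ||
    ((vote V ρ I r 0 && vote V ρ I r 2) || (vote V ρ I r 1 && vote V ρ I r 2))

/-- The next step: all pairs of the sampled vertices are queried, then the vote is taken. -/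
def nxt (q : ℕ) (V : List Bool → List Bool) (ρ : Polynomial ℕ)
    (x : List Unit × List Unit × List Bool × List Bool) : (ℕ × ℕ) ⊕ Bool :=
  if x.2.2.2.length < zN q x.2.1.length * zN q x.2.1.length then
    Sum.inl (x.2.2.2.length / zN q x.2.1.length, x.2.2.2.length % zN q x.2.1.length)
  else Sum.inr (verd V ρ (x.2.1, x.2.2.2.reverse) x.2.2.1)

theorem poly_bits : NPC.Poly (fun a : β => bits a) := by
  have h : PC (bits : β → List Bool) (fun x : List Bool => x) (fun a : β => bits a) :=
    (PC.id : PC (bits : β → List Bool) (bits : β → List Bool) (fun a => a))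
  exact PC.comp (g := fun x => x) (f := fun a : β => bits a) PC.rawIn h

theorem vote_poly {V : List Bool → List Bool} (hV : PolyTime V) (ρ : Polynomial ℕ) (i : ℕ)
    {I : β → List Unit × List Bool} {r : β → List Bool} (hI : NPC.Poly I) (hr : NPC.Poly r) :
    NPC.Poly (fun x => vote V ρ (I x) (r x) i) := by
  have hb : NPC.Poly (fun x => bits (I x)) := poly_bits.comp hI
  have hR : UPoly (fun x => rl ρ (I x)) := UPoly.eval (UPoly.length hb) ρ
  have f1 := Poly.fst (NPC.Poly.id (α := β × ℕ))
  have f2 := Poly.snd (NPC.Poly.id (α := β × ℕ))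
  have hc : NPC.Poly (fun x => chunk (rl ρ (I x)) i (r x)) :=
    NPC.Poly.map (F := fun x j => (r x).getD (i * rl ρ (I x) + j) false) (UPoly.range hR)
      (Poly.getD (hr.comp f1) (NPC.Poly.add (NPC.Poly.mul (NPC.Poly.const i)
        (hR.toPoly.comp f1)) f2) (NPC.Poly.const false))
  exact Poly.decide_eq ((H622R2.poly_of_polyTime hV).comp (H622R2.poly_pairBits hb hc))
    (NPC.Poly.const [true])

theorem nxt_poly (q : ℕ) {V : List Bool → List Bool} (hV : PolyTime V) (ρ : Polynomial ℕ) :
    NPC.Poly (nxt q V ρ) := by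
  have h1 := NPC.Poly.id (α := List Unit × List Unit × List Bool × List Bool)
  have hs := Poly.fst (Poly.snd h1)
  have hr := Poly.fst (Poly.snd (Poly.snd h1))
  have ha := Poly.snd (Poly.snd (Poly.snd h1))
  have hN := (zN_poly q (UPoly.length hs)).toPoly
  have hI := Poly.pair hs (Poly.reverse ha)
  have v0 := vote_poly hV ρ 0 hI hr
  have v1 := vote_poly hV ρ 1 hI hr
  have v2 := vote_poly hV ρ 2 hI hr
  exact Poly.ite (Poly.decide_lt (Poly.length ha) (NPC.Poly.mul hN hN))
    (Poly.inl (Poly.pair (Poly.div (Poly.length ha) hN) (Poly.mod (Poly.length ha) hN)))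
    (Poly.inr (Poly.or (Poly.and v0 v1) (Poly.or (Poly.and v0 v2) (Poly.and v1 v2))))

/-- The algorithm. -/
def tester (q : ℕ) {V : List Bool → List Bool} (hV : PolyTime V) (ρ : Polynomial ℕ) (k : ℕ) :
    Alg where
  next := nxt q V ρ
  k := k
  poly := by
    refine ⟨_, polyTime_opt (g := fun x => (unbits (List Unit × List Unit × List Bool × List Bool)
      x).map (nxt q V ρ)) ?_, fun a => ?_⟩
    · refine (Poly.optCases (o := unbits (List Unit × List Unit × List Bool × List Bool))
        (g := fun _ => (none : Option ((ℕ × ℕ) ⊕ Bool)))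
        (h := fun _ a => some (nxt q V ρ a)) poly_unbits (NPC.Poly.const _)
        (Poly.some ((nxt_poly q hV ρ).comp (Poly.snd NPC.Poly.id)))).congr fun x => ?_
      cases unbits (List Unit × List Unit × List Bool × List Bool) x <;> rfl
    · simp only [unbits_bits, Option.map_some]

/-! ### The run -/

/-- The table of the answers. -/
def tab (orc : ℕ → ℕ → Bool) (N j : ℕ) : List Bool :=
  (List.range j).map fun m => orc (m / N) (m % N)

theorem tab_succ (orc : ℕ → ℕ → Bool) (N j : ℕ) :
    (tab orc N (j + 1)).reverse = orc (j / N) (j % N) :: (tab orc N j).reverse := by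
  unfold tab
  rw [List.range_succ, List.map_append, List.reverse_append]
  rfl

theorem tab_length (orc : ℕ → ℕ → Bool) (N j : ℕ) : (tab orc N j).length = j := by
  simp [tab]

theorem eA_tab (orc : ℕ → ℕ → Bool) {N i j : ℕ} (hi : i < N) (hj : j < N) :
    eA N (tab orc N (N * N)) i j = orc i j := by
  have h1 : i * N + j < N * N := pair_lt hi hj
  unfold eA tab
  rw [List.getD_eq_getElem _ _ (by simpa using h1), List.getElem_map, List.getElem_range]
  have h2 : (i * N + j) / N = i := by
    rw [Nat.add_comm, Nat.add_mul_div_right _ _ (by omega), Nat.div_eq_of_lt hj, Nat.zero_add]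
  have h3 : (i * N + j) % N = j := by
    rw [Nat.add_comm, Nat.add_mul_mod_self_right, Nat.mod_eq_of_lt hj]
  rw [h2, h3]

section

variable {q k : ℕ} {V : List Bool → List Bool} (hV : PolyTime V) (ρ : Polynomial ℕ)

theorem run_tab (e s : ℕ) (r : List Bool) (orc : ℕ → ℕ → Bool) (j : ℕ)
    (hj : j ≤ zN q s * zN q s) (fuel : ℕ) :
    (tester q hV ρ k).run e s r orc (fuel + j) [] =
      (tester q hV ρ k).run e s r orc fuel (tab orc (zN q s) j).reverse := by
  induction j generalizing fuel with
  | zero => rfl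
  | succ j ih =>
    have h1 : fuel + (j + 1) = (fuel + 1) + j := by omega
    rw [h1, ih (by omega)]
    have h2 : (tester q hV ρ k).next (List.replicate e (), List.replicate s (), r,
        (tab orc (zN q s) j).reverse) = Sum.inl (j / zN q s, j % zN q s) := by
      change nxt q V ρ _ = _
      unfold nxt
      simp only [List.length_reverse, tab_length, List.length_replicate]
      rw [if_pos (by omega)]
    conv_lhs => unfold Alg.run
    rw [h2, tab_succ]

theorem run_verd (e s : ℕ) (r : List Bool) (orc : ℕ → ℕ → Bool) {fuel : ℕ}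
    (hf : zN q s * zN q s < fuel) : (tester q hV ρ k).run e s r orc fuel [] =
      verd V ρ (List.replicate s (), tab orc (zN q s) (zN q s * zN q s)) r := by
  obtain ⟨f, rfl⟩ : ∃ f, fuel = (f + 1) + zN q s * zN q s := ⟨fuel - 1 - zN q s * zN q s, by omega⟩
  rw [run_tab hV ρ e s r orc _ le_rfl]
  have h2 : (tester q hV ρ k).next (List.replicate e (), List.replicate s (), r,
      (tab orc (zN q s) (zN q s * zN q s)).reverse) =
      Sum.inr (verd V ρ (List.replicate s (), tab orc (zN q s) (zN q s * zN q s)) r) := by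
    change nxt q V ρ _ = _
    unfold nxt
    simp only [List.length_reverse, tab_length, List.length_replicate, List.reverse_reverse]
    rw [if_neg (lt_irrefl _)]
  conv_lhs => unfold Alg.run
  rw [h2]

end

/-! ### The vote -/

theorem chunk_ofFn {M R : ℕ} (r : Fin M → Bool) {i : ℕ} (h : ∀ j : Fin R, i * R + j < M) :
    chunk R i (List.ofFn r) = List.ofFn fun j : Fin R => r ⟨i * R + j, h j⟩ := by
  unfold chunk
  apply List.ext_getElem
  · simp
  · intro m h1 h2
    have hm : m < R := by simpa using h2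
    rw [List.getElem_map, List.getElem_range, List.getElem_ofFn, getD_ofFn r (h ⟨m, hm⟩)]

theorem blk_fin {M R : ℕ} (hM : 3 * R ≤ M) (i : Fin 3) (j : Fin R) : (i : ℕ) * R + j < M :=
  (blk_lt i.2 j.2).trans_le hM

/-- Three blocks of random bits are independent. -/
theorem blocks {M R : ℕ} (hM : 3 * R ≤ M) (Q : (Fin R → Bool) → Prop) (h3 : 2 / 3 ≤ pb Q) :
    pb (fun r : Fin M → Bool => ¬ two3 (Q fun j => r ⟨((0 : Fin 3) : ℕ) * R + j, blk_fin hM 0 j⟩)
      (Q fun j => r ⟨((1 : Fin 3) : ℕ) * R + j, blk_fin hM 1 j⟩)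
      (Q fun j => r ⟨((2 : Fin 3) : ℕ) * R + j, blk_fin hM 2 j⟩)) ≤ 7 / 27 := by
  let e : Fin 3 × Fin R → Fin M := fun z => ⟨z.1 * R + z.2, blk_fin hM z.1 z.2⟩
  have he : Function.Injective e := by
    rintro ⟨i, j⟩ ⟨i', j'⟩ h
    obtain ⟨h1, h2⟩ := blk_inj j.2 j'.2 (Fin.mk.inj h)
    exact Prod.ext (Fin.ext h1) (Fin.ext h2)
  have h1 := pb_comp (V := Bool) e he
    (fun h => ¬ two3 (Q fun j => h (0, j)) (Q fun j => h (1, j)) (Q fun j => h (2, j)))
  have h2 := pb_equiv (Equiv.curry (Fin 3) (Fin R) Bool)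
    (fun x : Fin 3 → Fin R → Bool => ¬ two3 (Q (x 0)) (Q (x 1)) (Q (x 2)))
  exact h1.trans ((le_of_eq h2).trans (pb_maj Q h3))

theorem maj_logic {a b c p : Prop} (h : two3 (a ↔ p) (b ↔ p) (c ↔ p)) :
    ((a ∧ b) ∨ ((a ∧ c) ∨ (b ∧ c))) ↔ p := by
  unfold two3 at h
  tauto

/-- A run of the randomized algorithm is right with probability at least `2 / 3`. -/
theorem run_right {V : List Bool → List Bool} {ρ : Polynomial ℕ}
    {P : List Unit × List Bool → Prop}
    (hV : ∀ x, 2 * 2 ^ ρ.eval x.length ≤ 3 * {r : List Bool | r.length = ρ.eval x.length ∧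
      (V (pairBits x r) = [true] ↔ x ∈ lang P)}.ncard) (I : List Unit × List Bool) :
    2 / 3 ≤ pb (fun y : Fin (rl ρ I) → Bool =>
      (V (pairBits (bits I) (List.ofFn y)) = [true] ↔ P I)) := by
  classical
  have h4 := hV (bits I)
  rw [ncard_strings] at h4
  have h5 : (2 : ℝ) * 2 ^ rl ρ I ≤ 3 * ((Finset.univ.filter fun y : Fin (rl ρ I) → Bool =>
      (V (pairBits (bits I) (List.ofFn y)) = [true] ↔ bits I ∈ lang P)).card : ℝ) := by
    exact_mod_cast h4
  unfold pb
  rw [Fintype.card_fun, Fintype.card_bool, Fintype.card_fin]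
  push_cast
  rw [le_div_iff₀ (by positivity)]
  have h7 : ((Finset.univ.filter fun y : Fin (rl ρ I) → Bool =>
      (V (pairBits (bits I) (List.ofFn y)) = [true] ↔ bits I ∈ lang P)).card : ℝ) ≤
      ((@Finset.filter _ (fun y : Fin (rl ρ I) → Bool =>
        (V (pairBits (bits I) (List.ofFn y)) = [true] ↔ P I))
        (fun a => Classical.propDecidable _) Finset.univ).card : ℝ) := by
    refine Nat.cast_le.2 (Finset.card_le_card fun y hy => ?_)
    simp only [Finset.mem_filter, Finset.mem_univ, true_and, bits_mem_lang] at hy ⊢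
    exact hy
  linarith

/-- The majority vote is wrong with probability at most `7 / 27`. -/
theorem verd_err {V : List Bool → List Bool} {ρ : Polynomial ℕ} {P : List Unit × List Bool → Prop}
    (hV : ∀ x, 2 * 2 ^ ρ.eval x.length ≤ 3 * {r : List Bool | r.length = ρ.eval x.length ∧
      (V (pairBits x r) = [true] ↔ x ∈ lang P)}.ncard) (I : List Unit × List Bool) {M : ℕ}
    (hM : 3 * rl ρ I ≤ M) :
    pb (fun r : Fin M → Bool => ¬ (verd V ρ I (List.ofFn r) = true ↔ P I)) ≤ 7 / 27 := by
  refine (pb_mono fun r hr => ?_).trans (blocks hM (fun y =>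
    (V (pairBits (bits I) (List.ofFn y)) = [true] ↔ P I)) (run_right hV I))
  intro hmaj
  apply hr
  have c0 := chunk_ofFn r (i := ((0 : Fin 3) : ℕ)) (blk_fin hM 0)
  have c1 := chunk_ofFn r (i := ((1 : Fin 3) : ℕ)) (blk_fin hM 1)
  have c2 := chunk_ofFn r (i := ((2 : Fin 3) : ℕ)) (blk_fin hM 2)
  rw [← c0, ← c1, ← c2] at hmaj
  have h := maj_logic hmaj
  unfold verd vote
  simp only [Bool.or_eq_true, Bool.and_eq_true, decide_eq_true_eq]
  exact h

end Pool.Agent.Y645.BU
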