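import Pool.Agent.Y645.BU.Num
import Pool.Agent.Y645.BU.Tester

/-!
# The error of the algorithm on a given graph
-/

set_option autoImplicit false

namespace Pool.Agent.Y645.BU

open Finset Pool.Agent.NPC Pool.Agent.Y645.BT

variable {n : ℕ}

theorem PhiE_congr {E E' : ℕ → ℕ → Bool} {Y Y' : ℕ → Bool} {u T : ℕ}
    (hE : ∀ i < u + T, ∀ j < u + T, E i j = E' i j) (h : ∀ i < u + T, Y i = Y' i) (K : ℝ) :
    PhiE E Y u T K = PhiE E' Y' u T K := by
  rw [chk_congr h]
  have h1 : (fun b c : Fin T => ind (E (u + b) (u + c))) =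
      fun b c : Fin T => ind (E' (u + b) (u + c)) := by
    funext b c
    rw [hE (u + b) (by omega) (u + c) (by omega)]
  have h2 : (fun b : Fin T => av fun c : Fin u => ind (E (u + b) c) * ind (Y' c)) =
      fun b : Fin T => av fun c : Fin u => ind (E' (u + b) c) * ind (Y' c) := by
    funext b
    congr 1
    funext c
    rw [hE (u + b) (by omega) c (by omega)]
  unfold PhiE
  rw [h1, h2]

section

variable {p q s bd : ℕ}

/-- Acceptance in terms of the relaxed objective. -/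
theorem acc_iff (hq : 0 < q) (hs : 0 < s) (orc : ℕ → ℕ → Bool) :
    Acc p q (List.replicate s (), tab orc (zN q s) (zN q s * zN q s)) ↔
      ∃ Y : ℕ → Bool, PhiE orc Y (zu q s) (zT q s) (2 * zg q s : ℕ) ≤
        (p : ℝ) / q + 1 / (2 * zg q s) := by
  have key : ∀ yw : List Bool, chk p q s (tab orc (zN q s) (zN q s * zN q s)) yw = true ↔
      PhiE orc (fun i => yw.getD i false) (zu q s) (zT q s) (2 * zg q s : ℕ) ≤
        (p : ℝ) / q + 1 / (2 * zg q s) := by
    intro yw
    unfold chk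
    rw [decide_eq_true_eq, chk_iff (eA (zN q s) (tab orc (zN q s) (zN q s * zN q s)))
      (fun i => yw.getD i false) (zu q s) (zT q s) rfl (zu_pos hq hs) (zw_pos hq hs)
      (zg_pos hq hs) hq]
    rw [PhiE_congr (E := eA (zN q s) (tab orc (zN q s) (zN q s * zN q s))) (E' := orc)
      (Y := fun i => yw.getD i false) (Y' := fun i => yw.getD i false) (u := zu q s)
      (T := zT q s) (fun i hi j hj => eA_tab orc hi hj) (fun _ _ => rfl)]
  unfold Acc
  simp only [List.length_replicate]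
  constructor
  · rintro ⟨yw, _, h⟩
    exact ⟨_, (key yw).1 h⟩
  · rintro ⟨Y, hY⟩
    refine ⟨(List.range (zN q s)).map Y, by simp, (key _).2 ?_⟩
    rw [chk_congr (Y' := Y)]
    · exact hY
    · intro i hi
      have hi' : i < zN q s := hi
      rw [List.getD_eq_getElem _ _ (by simpa using hi'), List.getElem_map, List.getElem_range]

/-- The first sample. -/
def v₁ {u : ℕ} (h : u ≤ bd) (v : Fin bd → Fin n) (c : Fin u) : Fin n := v ⟨c, c.2.trans_le h⟩

/-- The second sample. -/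
def v₂ {u T : ℕ} (h : u + T ≤ bd) (v : Fin bd → Fin n) (b : Fin T) : Fin n :=
  v ⟨u + b, (Nat.add_lt_add_left b.2 u).trans_le h⟩

theorem PhiE_sample {u T : ℕ} (h1 : u ≤ bd) (h2 : u + T ≤ bd) (G : Gr n) (v : Fin bd → Fin n)
    (Y : ℕ → Bool) (K : ℝ) : PhiE (orcOf G v) Y u T K =
      Phi K (wS (wG G) (v₂ h2 v)) (fun b => aU (wG G) (v₁ h1 v) (lab fun c : Fin u => Y c)
        (v₂ h2 v b)) (lab fun b : Fin T => Y (u + b)) := by
  have e1 : (fun b c : Fin T => ind (orcOf G v (u + b) (u + c))) = wS (wG G) (v₂ h2 v) := by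
    funext b c
    unfold orcOf wS wG v₂
    rw [dif_pos ⟨by omega, by omega⟩]
  have e2 : (fun b : Fin T => av fun c : Fin u => ind (orcOf G v (u + b) c) * ind (Y c)) =
      fun b => aU (wG G) (v₁ h1 v) (lab fun c : Fin u => Y c) (v₂ h2 v b) := by
    funext b
    unfold aU
    congr 1
    funext c
    unfold orcOf wG v₂ v₁
    rw [dif_pos ⟨by omega, by omega⟩]
    rfl
  unfold PhiE
  rw [e1, e2]
  rfl

/-- Events that depend on the two samples. -/
theorem pb_samples {u T : ℕ} (h1 : u ≤ bd) (h2 : u + T ≤ bd)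
    (P : (Fin u → Fin n) × (Fin T → Fin n) → Prop) :
    pb (fun v : Fin bd → Fin n => P (v₁ h1 v, v₂ h2 v)) ≤ pb P := by
  let e : Fin u ⊕ Fin T → Fin bd := Sum.elim (fun c => ⟨c, c.2.trans_le h1⟩)
    (fun b => ⟨u + b, (Nat.add_lt_add_left b.2 u).trans_le h2⟩)
  have he : Function.Injective e := by
    rintro (a | a) (b | b) h
    · have := Fin.mk.inj h
      rw [Fin.ext this]
    · have := Fin.mk.inj h
      omega
    · have := Fin.mk.inj h
      omega
    · have := Fin.mk.inj h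
      rw [Fin.ext (by omega : (a : ℕ) = b)]
  have h3 := pb_comp (V := Fin n) e he
    (fun h => P (Equiv.sumArrowEquivProdArrow (Fin u) (Fin T) (Fin n) h))
  have h4 := pb_equiv (Equiv.sumArrowEquivProdArrow (Fin u) (Fin T) (Fin n)) P
  exact h3.trans (le_of_eq h4)

/-- Graphs with the property are accepted. -/
theorem acc_yes (hq : 0 < q) (hs : 0 < s) (hn : 0 < n) (hbd : zN q s ≤ bd) {G : Gr n}
    (hG : Bisection ((p : ℝ) / q) G) :
    pb (fun v : Fin bd → Fin n => ¬ Acc p q (List.replicate s (),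
      tab (orcOf G v) (zN q s) (zN q s * zN q s))) ≤ 1 / 100 := by
  classical
  obtain ⟨S, hS, hc⟩ := hG
  have h1 : zu q s ≤ bd := le_trans (Nat.le_add_right _ _) hbd
  have h2 : zu q s + zT q s ≤ bd := hbd
  have hδ : (1 : ℝ) / (16 * zg q s) ≤ 1 := by
    rw [div_le_one (by have := g_ge hq hs; positivity)]
    have := g_ge hq hs
    linarith
  have hc1 := complete (u := zu q s) (T := zT q s) (K := (2 * zg q s : ℕ))
    (δ := 1 / (16 * zg q s)) hn (zT_pos hq hs) (zu_pos hq hs) hS hc (Nat.cast_nonneg _)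
    (by positivity) hδ
  have hf := hc1.trans (fail_yes hq hs rfl)
  refine (pb_mono fun v hv => ?_).trans ((pb_samples h1 h2 _).trans hf)
  rw [acc_iff hq hs, not_exists] at hv
  have h3 := hv (fun i => if h : i < bd then mb S (v ⟨i, h⟩) else false)
  rw [not_le, PhiE_sample h1 h2] at h3
  have e1 : (lab fun c : Fin (zu q s) => (if h : (c : ℕ) < bd then mb S (v ⟨c, h⟩) else false)) =
      lab fun c => mb S (v₁ h1 v c) := by
    congr 1
    funext c
    rw [dif_pos (c.2.trans_le h1)]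
    rfl
  have e2 : (lab fun b : Fin (zT q s) =>
      (if h : zu q s + (b : ℕ) < bd then mb S (v ⟨zu q s + b, h⟩) else false)) =
      lab fun b => mb S (v₂ h2 v b) := by
    congr 1
    funext b
    rw [dif_pos ((Nat.add_lt_add_left b.2 _).trans_le h2)]
    rfl
  rw [e1, e2] at h3
  refine lt_of_le_of_lt ?_ h3
  exact gap_yes hq hs rfl (by push_cast; ring)

/-- Graphs without small bisections are rejected. -/
theorem acc_no (hq : 0 < q) (hs : 0 < s) {h : ℕ} (hnh : n = 2 * h) (hn : 8 * zg q s ^ 2 < n)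
    (hbd : zN q s ≤ bd) {G : Gr n} (hG : ¬ Bisection ((p : ℝ) / q + 1 / zg q s) G) :
    pb (fun v : Fin bd → Fin n => Acc p q (List.replicate s (),
      tab (orcOf G v) (zN q s) (zN q s * zN q s))) ≤ 1 / 100 := by
  have hn0 : 0 < n := by omega
  have h1 : zu q s ≤ bd := le_trans (Nat.le_add_right _ _) hbd
  have h2 : zu q s + zT q s ≤ bd := hbd
  have hg := g_ge hq hs
  have hδ : (1 : ℝ) / (16 * zg q s) ≤ 1 := by
    rw [div_le_one (by positivity)]
    linarith
  have hcut : ∀ S : Finset (Fin n), 2 * S.card = n →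
      ((p : ℝ) / q + 1 / zg q s) * (n : ℝ) ^ 2 ≤ cut G S := by
    intro S hS
    by_contra hcon
    exact hG ⟨S, hS, (not_le.1 hcon).le⟩
  have hK : (1 : ℝ) ≤ (2 * zg q s : ℕ) := by
    push_cast
    linarith
  have hlow : ∀ a : Fin n → ℝ, (∀ i, 0 ≤ a i ∧ a i ≤ 1) → ∀ x, (∀ i, 0 ≤ x i ∧ x i ≤ 1) →
      (p : ℝ) / q + 1 / zg q s - 1 / (2 * (2 * zg q s : ℕ)) - (2 * zg q s : ℕ) / (4 * n) ≤
        Phi (2 * zg q s : ℕ) (wG G) a x := fun a _ x hx =>
    lower hnh hn0 (by linarith) hcut a hx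
  have hs1 : pb (fun z : (Fin (zu q s) → Fin n) × (Fin (zT q s) → Fin n) =>
      ∃ π : Fin (zu q s) → Bool, ∃ y : Fin (zT q s) → ℝ, (∀ b, 0 ≤ y b ∧ y b ≤ 1) ∧
      Phi (2 * zg q s : ℕ) (wS (wG G) z.2) (fun b => aU (wG G) z.1 (lab π) (z.2 b)) y <
        (p : ℝ) / q + 1 / zg q s - 1 / (2 * (2 * zg q s : ℕ)) - (2 * zg q s : ℕ) / (4 * n) -
          3 * (1 / (16 * zg q s))) ≤ 1 / 100 := by
    refine pb_prod _ (by norm_num) fun z => ?_
    exact (sound_all (zT_pos hq hs) hK (by positivity) hδ (wG_bd G) z hlow).trans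
      (fail_no hq hs rfl (by push_cast; ring))
  refine (pb_mono fun v hv => ?_).trans ((pb_samples h1 h2 _).trans hs1)
  rw [acc_iff hq hs] at hv
  obtain ⟨Y, hY⟩ := hv
  rw [PhiE_sample h1 h2] at hY
  refine ⟨_, _, lab_bd _, lt_of_le_of_lt hY ?_⟩
  exact gap_no hq hs rfl (by push_cast; ring) hn

end

/-- The error in terms of fractions. -/
theorem wrong_eq (A : Alg) (ρ : ℝ) (e s : ℕ) (G : Gr n) : A.wrong ρ e s G =
    pb (fun x : (Fin (A.bd e s) → Fin n) × (Fin (A.bd e s) → Bool) =>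
      ¬ (A.out e s G x.1 x.2 = true ↔ Bisection ρ G)) := by
  have h1 : (Fintype.card ((Fin (A.bd e s) → Fin n) × (Fin (A.bd e s) → Bool)) : ℝ) =
      (n : ℝ) ^ A.bd e s * 2 ^ A.bd e s := by
    rw [Fintype.card_prod, Fintype.card_fun, Fintype.card_fun, Fintype.card_fin, Fintype.card_fin,
      Fintype.card_bool]
    push_cast
    rfl
  unfold Alg.wrong pb
  rw [h1]
  refine congrArg (fun z : ℝ => z / ((n : ℝ) ^ A.bd e s * 2 ^ A.bd e s)) (congrArg Nat.cast
    (congrArg Finset.card ?_))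
  ext x
  simp

section

variable {p q k : ℕ} {V : List Bool → List Bool} (hV : PolyTime V) {ρ : Polynomial ℕ}

/-- The error, from the acceptance of the samples. -/
theorem wrong_le (hVr : ∀ x, 2 * 2 ^ ρ.eval x.length ≤ 3 * {r : List Bool |
      r.length = ρ.eval x.length ∧ (V (pairBits x r) = [true] ↔ x ∈ lang (Acc p q))}.ncard)
    {e s : ℕ} (h1 : zN q s * zN q s < (tester q hV ρ k).bd e s)
    (h2 : ∀ ans : List Bool, ans.length = zN q s * zN q s →
      3 * rl ρ (List.replicate s (), ans) ≤ (tester q hV ρ k).bd e s) {ρ' : ℝ} {G : Gr n} {η : ℝ}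
    (hη : 0 ≤ η)
    (h3 : pb (fun v : Fin ((tester q hV ρ k).bd e s) → Fin n => ¬ (Acc p q (List.replicate s (),
      tab (orcOf G v) (zN q s) (zN q s * zN q s)) ↔ Bisection ρ' G)) ≤ η) :
    (tester q hV ρ k).wrong ρ' e s G ≤ η + 7 / 27 := by
  have h6 : ∀ x : (Fin ((tester q hV ρ k).bd e s) → Fin n) ×
      (Fin ((tester q hV ρ k).bd e s) → Bool), (tester q hV ρ k).out e s G x.1 x.2 =
      verd V ρ (List.replicate s (), tab (orcOf G x.1) (zN q s) (zN q s * zN q s))
        (List.ofFn x.2) := fun x => run_verd hV ρ e s _ _ h1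
  rw [wrong_eq]
  simp only [h6]
  clear h6 h1
  generalize (tester q hV ρ k).bd e s = bd at h2 h3 ⊢
  have h4 : pb (fun x : (Fin bd → Fin n) × (Fin bd → Bool) =>
      ¬ (Acc p q (List.replicate s (), tab (orcOf G x.1) (zN q s) (zN q s * zN q s)) ↔
        Bisection ρ' G)) ≤ η := pb_prod' _ hη fun _ => h3
  have h7 : ∀ v : Fin bd → Fin n, pb (fun r : Fin bd → Bool =>
      ¬ (verd V ρ (List.replicate s (), tab (orcOf G v) (zN q s) (zN q s * zN q s))
        (List.ofFn r) = true ↔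
        Acc p q (List.replicate s (), tab (orcOf G v) (zN q s) (zN q s * zN q s)))) ≤ 7 / 27 := by
    intro v
    have hl := tab_length (orcOf G v) (zN q s) (zN q s * zN q s)
    generalize tab (orcOf G v) (zN q s) (zN q s * zN q s) = ans at hl ⊢
    exact verd_err hVr _ (h2 ans hl)
  have h5 : pb (fun x : (Fin bd → Fin n) × (Fin bd → Bool) =>
      ¬ (verd V ρ (List.replicate s (), tab (orcOf G x.1) (zN q s) (zN q s * zN q s))
        (List.ofFn x.2) = true ↔
        Acc p q (List.replicate s (), tab (orcOf G x.1) (zN q s) (zN q s * zN q s)))) ≤ 7 / 27 :=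
    pb_prod _ (by norm_num) h7
  refine (pb_mono fun x hx => ?_).trans ((pb_or _ _).trans (add_le_add h4 h5))
  by_contra hcon
  rw [not_or, not_not, not_not] at hcon
  exact hx (hcon.2.trans hcon.1)

end

end Pool.Agent.Y645.BU
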